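import Mathlib

/-! MP_fab550_an: definitions (effective Hamiltonian of a bounded measurable speed). -/

set_option autoImplicit false

namespace Pool.Agent.R284.HJ

open MeasureTheory

/-- The Euclidean plane. -/
abbrev Pl : Type := EuclideanSpace ℝ (Fin 2)

/-- An integer vector, as a vector of the plane. -/
noncomputable def ivec (k : Fin 2 → ℤ) : Pl := WithLp.toLp 2 (fun i => (k i : ℝ))

/-- `ℤ²`-periodic functions, i.e. functions on the torus `ℝ² / ℤ²`. -/
def Per {β : Type*} (f : Pl → β) : Prop := ∀ (x : Pl) (k : Fin 2 → ℤ), f (x + ivec k) = f x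

/-- `a ∈ L^∞(𝕋², (0,∞))` with positive essential lower bound. -/
def Admissible (a : Pl → ℝ) : Prop :=
  AEMeasurable a volume ∧ Per a ∧ ∃ α β : ℝ, 0 < α ∧ ∀ᵐ y ∂(volume : Measure Pl), α ≤ a y ∧ a y ≤ β

/-- The effective Hamiltonian: infimum over `C¹` functions `φ` on the torus of the essential
supremum of `a |p + Dφ|`. -/
noncomputable def effH (a : Pl → ℝ) (p : Pl) : ℝ :=
  sInf {r : ℝ | ∃ φ : Pl → ℝ, ContDiff ℝ 1 φ ∧ Per φ ∧
    r = essSup (fun y => a y * ‖p + gradient φ y‖) (volume : Measure Pl)}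

/-- The set `S_a`. -/
def Sa (a : Pl → ℝ) : Set Pl := {p : Pl | effH a p ≤ 1}

/-- The family `𝓦` of symmetric convex bodies of the plane. -/
def InW (K : Set Pl) : Prop :=
  IsCompact K ∧ Convex ℝ K ∧ (∀ x ∈ K, -x ∈ K) ∧ (interior K).Nonempty

end Pool.Agent.R284.HJ
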