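import Mathlib
import Pool.Agent.R284.HJ.Defs

/-! HJ-A for MP_fab550_an (Hahn-Banach functional), by helper43. -/

set_option autoImplicit false

namespace Pool.Agent.R284.HJ

open MeasureTheory Filter Topology
open scoped BoundedContinuousFunction NNReal Real

namespace A

/-- `c` bounds `a |F + Dφ|` for some periodic `C¹` function `φ`. -/
def Adm (a : Pl → ℝ) (F : Pl →ᵇ Pl) (c : ℝ) : Prop :=
  ∃ φ : Pl → ℝ, ContDiff ℝ 1 φ ∧ Per φ ∧
    ∀ᵐ y ∂(volume : Measure Pl), a y * ‖F y + gradient φ y‖ ≤ c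

/-- The sublinear functional. -/
noncomputable def N (a : Pl → ℝ) (F : Pl →ᵇ Pl) : ℝ := sInf {c | Adm a F c}

theorem grad_smul (t : ℝ) (φ : Pl → ℝ) (hφ : ContDiff ℝ 1 φ) (y : Pl) :
    gradient (fun z => t * φ z) y = t • gradient φ y := by
  have hd : DifferentiableAt ℝ φ y := (hφ.differentiable (by norm_num)) y
  unfold gradient
  rw [fderiv_const_mul hd]
  simp

theorem grad_add (φ ψ : Pl → ℝ) (hφ : ContDiff ℝ 1 φ) (hψ : ContDiff ℝ 1 ψ) (y : Pl) :
    gradient (fun z => φ z + ψ z) y = gradient φ y + gradient ψ y := by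
  have hd : DifferentiableAt ℝ φ y := (hφ.differentiable (by norm_num)) y
  have hd' : DifferentiableAt ℝ ψ y := (hψ.differentiable (by norm_num)) y
  unfold gradient
  rw [fderiv_fun_add hd hd']
  simp

theorem grad_zero (y : Pl) : gradient (fun _ : Pl => (0 : ℝ)) y = 0 := by
  unfold gradient
  simp

theorem adm_smul (a : Pl → ℝ) (F : Pl →ᵇ Pl) (c t : ℝ) (ht : 0 < t) (h : Adm a F c) :
    Adm a (t • F) (t * c) := by
  obtain ⟨φ, h1, h2, h3⟩ := h
  refine ⟨fun z => t * φ z, contDiff_const.mul h1, ?_, ?_⟩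
  · intro x k
    show t * φ (x + ivec k) = t * φ x
    rw [h2 x k]
  · filter_upwards [h3] with y hy
    rw [grad_smul t φ h1 y]
    have : (t • F) y + t • gradient φ y = t • (F y + gradient φ y) := by
      rw [smul_add]
      rfl
    rw [this, norm_smul, Real.norm_eq_abs, abs_of_pos ht]
    calc a y * (t * ‖F y + gradient φ y‖) = t * (a y * ‖F y + gradient φ y‖) := by ring
      _ ≤ t * c := mul_le_mul_of_nonneg_left hy ht.le

theorem adm_add (a : Pl → ℝ) (ha : ∀ᵐ y ∂(volume : Measure Pl), 0 ≤ a y) (F G : Pl →ᵇ Pl)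
    (c d : ℝ) (hF : Adm a F c) (hG : Adm a G d) : Adm a (F + G) (c + d) := by
  obtain ⟨φ, h1, h2, h3⟩ := hF
  obtain ⟨ψ, k1, k2, k3⟩ := hG
  refine ⟨fun z => φ z + ψ z, h1.add k1, ?_, ?_⟩
  · intro x k
    show φ (x + ivec k) + ψ (x + ivec k) = φ x + ψ x
    rw [h2 x k, k2 x k]
  · filter_upwards [h3, k3, ha] with y hy hy' hay
    rw [grad_add φ ψ h1 k1 y]
    have : (F + G) y + (gradient φ y + gradient ψ y)
        = (F y + gradient φ y) + (G y + gradient ψ y) := by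
      show (F y + G y) + (gradient φ y + gradient ψ y) = _
      abel
    rw [this]
    calc a y * ‖(F y + gradient φ y) + (G y + gradient ψ y)‖
        ≤ a y * (‖F y + gradient φ y‖ + ‖G y + gradient ψ y‖) :=
          mul_le_mul_of_nonneg_left (norm_add_le _ _) hay
      _ = a y * ‖F y + gradient φ y‖ + a y * ‖G y + gradient ψ y‖ := by ring
      _ ≤ c + d := add_le_add hy hy'

theorem adm_nonneg (a : Pl → ℝ) (ha : ∀ᵐ y ∂(volume : Measure Pl), 0 ≤ a y) (F : Pl →ᵇ Pl)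
    (c : ℝ) (hF : Adm a F c) : 0 ≤ c := by
  obtain ⟨φ, h1, h2, h3⟩ := hF
  obtain ⟨y, hy, hy'⟩ := (h3.and ha).exists
  exact (mul_nonneg hy' (norm_nonneg _)).trans hy

theorem adm_of_le (a : Pl → ℝ) (F : Pl →ᵇ Pl) (c : ℝ)
    (h : ∀ᵐ y ∂(volume : Measure Pl), a y * ‖F y‖ ≤ c) : Adm a F c := by
  refine ⟨fun _ => 0, contDiff_const, fun _ _ => rfl, ?_⟩
  filter_upwards [h] with y hy
  rw [grad_zero, add_zero]
  exact hy

theorem adm_nonempty (a : Pl → ℝ) (β : ℝ)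
    (ha : ∀ᵐ y ∂(volume : Measure Pl), 0 ≤ a y ∧ a y ≤ β) (F : Pl →ᵇ Pl) :
    Adm a F (β * ‖F‖) := by
  apply adm_of_le
  filter_upwards [ha] with y hy
  exact mul_le_mul hy.2 (F.norm_coe_le_norm y) (norm_nonneg _) (hy.1.trans hy.2)

theorem bddBelow (a : Pl → ℝ) (ha : ∀ᵐ y ∂(volume : Measure Pl), 0 ≤ a y) (F : Pl →ᵇ Pl) :
    BddBelow {c | Adm a F c} := ⟨0, fun c hc => adm_nonneg a ha F c hc⟩

theorem N_le (a : Pl → ℝ) (ha : ∀ᵐ y ∂(volume : Measure Pl), 0 ≤ a y) (F : Pl →ᵇ Pl) (c : ℝ)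
    (h : Adm a F c) : N a F ≤ c := csInf_le (bddBelow a ha F) h

theorem N_smul_le (a : Pl → ℝ) (β : ℝ)
    (ha : ∀ᵐ y ∂(volume : Measure Pl), 0 ≤ a y ∧ a y ≤ β) (F : Pl →ᵇ Pl) (t : ℝ) (ht : 0 < t) :
    N a (t • F) ≤ t * N a F := by
  have ha' : ∀ᵐ y ∂(volume : Measure Pl), 0 ≤ a y := ha.mono fun y hy => hy.1
  have h1 : N a (t • F) / t ≤ N a F := by
    refine le_csInf ⟨_, adm_nonempty a β ha F⟩ ?_
    intro c hc
    rw [div_le_iff₀ ht]
    have := N_le a ha' (t • F) (t * c) (adm_smul a F c t ht hc)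
    linarith
  rw [div_le_iff₀ ht] at h1
  linarith

theorem N_hom (a : Pl → ℝ) (β : ℝ)
    (ha : ∀ᵐ y ∂(volume : Measure Pl), 0 ≤ a y ∧ a y ≤ β) (t : ℝ) (ht : 0 < t) (F : Pl →ᵇ Pl) :
    N a (t • F) = t * N a F := by
  apply le_antisymm (N_smul_le a β ha F t ht)
  have h := N_smul_le a β ha (t • F) t⁻¹ (inv_pos.mpr ht)
  rw [smul_smul, inv_mul_cancel₀ ht.ne', one_smul] at h
  calc t * N a F ≤ t * (t⁻¹ * N a (t • F)) := mul_le_mul_of_nonneg_left h ht.le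
    _ = N a (t • F) := by
      rw [← mul_assoc, mul_inv_cancel₀ ht.ne', one_mul]

theorem N_add (a : Pl → ℝ) (β : ℝ)
    (ha : ∀ᵐ y ∂(volume : Measure Pl), 0 ≤ a y ∧ a y ≤ β) (F G : Pl →ᵇ Pl) :
    N a (F + G) ≤ N a F + N a G := by
  have ha' : ∀ᵐ y ∂(volume : Measure Pl), 0 ≤ a y := ha.mono fun y hy => hy.1
  have h1 : N a (F + G) - N a G ≤ N a F := by
    refine le_csInf ⟨_, adm_nonempty a β ha F⟩ ?_
    intro c hc
    have h2 : N a (F + G) - c ≤ N a G := by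
      refine le_csInf ⟨_, adm_nonempty a β ha G⟩ ?_
      intro d hd
      have := N_le a ha' (F + G) (c + d) (adm_add a ha' F G c d hc hd)
      linarith
    linarith
  linarith

/-- The constants, as a linear map. -/
noncomputable def cst : Pl →ₗ[ℝ] (Pl →ᵇ Pl) where
  toFun x := BoundedContinuousFunction.const Pl x
  map_add' x y := by ext z; rfl
  map_smul' t x := by ext z; rfl

theorem cst_apply (x y : Pl) : cst x y = x := rfl

/-- Evaluation at the origin, paired with `θ`. -/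
noncomputable def ev (θ : Pl) : (Pl →ᵇ Pl) →ₗ[ℝ] ℝ where
  toFun F := inner ℝ θ (F 0)
  map_add' F G := by
    show inner ℝ θ (F 0 + G 0) = _
    rw [inner_add_right]
  map_smul' t F := by
    show inner ℝ θ (t • F 0) = _
    rw [inner_smul_right]
    rfl

end A

open A in
theorem exists_T (a : Pl → ℝ) (α β : ℝ) (hα : 0 < α)
    (ha : ∀ᵐ y ∂(volume : Measure Pl), α ≤ a y ∧ a y ≤ β) (θ : Pl)
    (H1 : ∀ (x : Pl) (φ : Pl → ℝ) (c : ℝ), ContDiff ℝ 1 φ → Per φ →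
      (∀ᵐ y ∂(volume : Measure Pl), a y * ‖x + gradient φ y‖ ≤ c) → inner ℝ θ x ≤ c) :
    ∃ T : (Pl →ᵇ Pl) →ₗ[ℝ] ℝ,
      (∀ (F : Pl →ᵇ Pl) (c : ℝ), (∀ᵐ y ∂(volume : Measure Pl), a y * ‖F y‖ ≤ c) → T F ≤ c) ∧
      (∀ (x : Pl) (φ : Pl → ℝ) (F : Pl →ᵇ Pl), ContDiff ℝ 1 φ → Per φ →
        (∀ y, F y = x + gradient φ y) → T F = inner ℝ θ x) := by
  have ha0 : ∀ᵐ y ∂(volume : Measure Pl), 0 ≤ a y ∧ a y ≤ β :=
    ha.mono fun y hy => ⟨hα.le.trans hy.1, hy.2⟩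
  have ha' : ∀ᵐ y ∂(volume : Measure Pl), 0 ≤ a y := ha0.mono fun y hy => hy.1
  obtain ⟨T, hT1, hT2⟩ := exists_extension_of_le_sublinear
    (⟨LinearMap.range cst, (ev θ).domRestrict (LinearMap.range cst)⟩ : (Pl →ᵇ Pl) →ₗ.[ℝ] ℝ)
    (N a) (fun t ht F => N_hom a β ha0 t ht F) (fun F G => N_add a β ha0 F G) (by
      rintro ⟨F, x, rfl⟩
      show inner ℝ θ ((cst x) 0) ≤ N a (cst x)
      refine le_csInf ⟨_, adm_nonempty a β ha0 _⟩ ?_
      rintro c ⟨φ, h1, h2, h3⟩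
      exact H1 x φ c h1 h2 h3)
  have hTc : ∀ x : Pl, T (cst x) = inner ℝ θ x := fun x =>
    hT1 ⟨cst x, x, rfl⟩
  have key : ∀ (F : Pl →ᵇ Pl) (c : ℝ), Adm a F c → T F ≤ c := fun F c h =>
    (hT2 F).trans (N_le a ha' F c h)
  refine ⟨T, fun F c h => key F c (adm_of_le a F c h), ?_⟩
  intro x φ F hφ hper hF
  have e1 : T (F - cst x) ≤ 0 := by
    apply key
    refine ⟨fun z => (-1) * φ z, contDiff_const.mul hφ, ?_, ?_⟩
    · intro z k
      show (-1) * φ (z + ivec k) = (-1) * φ z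
      rw [hper z k]
    · filter_upwards with y
      rw [grad_smul (-1) φ hφ y]
      have : (F - cst x) y + (-1 : ℝ) • gradient φ y = 0 := by
        show (F y - x) + (-1 : ℝ) • gradient φ y = 0
        rw [hF y, neg_one_smul]
        abel
      rw [this]
      simp
  have e2 : T (cst x - F) ≤ 0 := by
    apply key
    refine ⟨φ, hφ, hper, ?_⟩
    filter_upwards with y
    have : (cst x - F) y + gradient φ y = 0 := by
      show (x - F y) + gradient φ y = 0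
      rw [hF y]
      abel
    rw [this]
    simp
  rw [map_sub, hTc] at e1 e2
  linarith

end Pool.Agent.R284.HJ
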