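import Mathlib
import Pool.Agent.R284.HJ.Defs

/-! MP_fab550_an, part HJ-B (helper813): convexity estimates for the dual functional. -/

set_option autoImplicit false

namespace Pool.Agent.R284.HJ

open MeasureTheory Filter Topology
open scoped BoundedContinuousFunction NNReal Real

section B

theorem hjb_zero_smul (X : Pl →ᵇ Pl) : (0 : Pl →ᵇ ℝ) • X = 0 := by
  ext1 y
  show (0 : ℝ) • X y = 0
  rw [zero_smul]

theorem hjb_one_smul (X : Pl →ᵇ Pl) : (1 : Pl →ᵇ ℝ) • X = X := by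
  ext1 y
  show (1 : ℝ) • X y = X y
  rw [one_smul]

theorem hjb_add_smul (g h : Pl →ᵇ ℝ) (X : Pl →ᵇ Pl) : (g + h) • X = g • X + h • X := by
  ext1 y
  show (g y + h y) • X y = g y • X y + h y • X y
  rw [add_smul]

theorem hjb_smul_smul (r : ℝ) (g : Pl →ᵇ ℝ) (X : Pl →ᵇ Pl) : (r • g) • X = r • (g • X) := by
  ext1 y
  show (r * g y) • X y = r • (g y • X y)
  rw [mul_smul]

variable (a : Pl → ℝ) (T : (Pl →ᵇ Pl) →ₗ[ℝ] ℝ)

/-- (1), one-sided. -/
theorem hjb_one (h0 : ∀ᵐ y ∂(volume : Measure Pl), 0 ≤ a y)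
    (hT : ∀ (F : Pl →ᵇ Pl) (c : ℝ), (∀ᵐ y ∂(volume : Measure Pl), a y * ‖F y‖ ≤ c) → T F ≤ c)
    (F G : Pl →ᵇ Pl) (c : ℝ)
    (hF : ∀ᵐ y ∂(volume : Measure Pl), a y * ‖F y‖ ≤ c)
    (hG : ∀ᵐ y ∂(volume : Measure Pl), a y * ‖G y‖ ≤ c)
    (hTG : T G = 1) (g : Pl →ᵇ ℝ) (hg0 : ∀ y, 0 ≤ g y) (hg1 : ∀ y, g y ≤ 1) :
    T (g • (F - G)) ≤ c - 1 := by
  have h := hT (G + g • (F - G)) c (by
    filter_upwards [h0, hF, hG] with y ha hf hg
    have e : (G + g • (F - G)) y = g y • F y + (1 - g y) • G y := by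
      show G y + g y • (F y - G y) = _
      rw [smul_sub, sub_smul, one_smul]
      abel
    rw [e]
    have n1 : ‖g y • F y + (1 - g y) • G y‖ ≤ g y * ‖F y‖ + (1 - g y) * ‖G y‖ := by
      refine (norm_add_le _ _).trans ?_
      rw [norm_smul, norm_smul, Real.norm_of_nonneg (hg0 y),
        Real.norm_of_nonneg (by linarith [hg1 y])]
    have h1 := mul_le_mul_of_nonneg_left n1 ha
    have h2 := mul_le_mul_of_nonneg_left hf (hg0 y)
    have h3 := mul_le_mul_of_nonneg_left hg (show 0 ≤ 1 - g y by linarith [hg1 y])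
    nlinarith)
  rw [map_add, hTG] at h
  linarith

/-- (1), for a general bounded function. -/
theorem hjb_two (h0 : ∀ᵐ y ∂(volume : Measure Pl), 0 ≤ a y)
    (hT : ∀ (F : Pl →ᵇ Pl) (c : ℝ), (∀ᵐ y ∂(volume : Measure Pl), a y * ‖F y‖ ≤ c) → T F ≤ c)
    (F G : Pl →ᵇ Pl) (c : ℝ)
    (hF : ∀ᵐ y ∂(volume : Measure Pl), a y * ‖F y‖ ≤ c)
    (hG : ∀ᵐ y ∂(volume : Measure Pl), a y * ‖G y‖ ≤ c)
    (hTF : T F = 1) (hTG : T G = 1) (g : Pl →ᵇ ℝ) :
    |T (g • F) - T (g • G)| ≤ 2 * ‖g‖ * (c - 1) := by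
  rcases eq_or_ne g 0 with rfl | hgz
  · rw [hjb_zero_smul, hjb_zero_smul]
    simp
  have hn : 0 < ‖g‖ := norm_pos_iff.2 hgz
  set g1 : Pl →ᵇ ℝ := (1 / (2 * ‖g‖)) • (g + ‖g‖ • (1 : Pl →ᵇ ℝ)) with hg1
  have e1 : ∀ y, g1 y = (1 / (2 * ‖g‖)) * (g y + ‖g‖) := by
    intro y
    show (1 / (2 * ‖g‖)) * (g y + ‖g‖ * 1) = _
    rw [mul_one]
  have b0 : ∀ y, 0 ≤ g1 y := by
    intro y
    rw [e1]
    have := (abs_le.1 (g.norm_coe_le_norm y)).1
    have h2 : 0 ≤ g y + ‖g‖ := by linarith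
    positivity
  have b1 : ∀ y, g1 y ≤ 1 := by
    intro y
    rw [e1]
    have := (abs_le.1 (g.norm_coe_le_norm y)).2
    rw [one_div, inv_mul_le_iff₀ (by positivity)]
    linarith
  have key1 := hjb_one a T h0 hT F G c hF hG hTG g1 b0 b1
  have key2 := hjb_one a T h0 hT G F c hG hF hTF g1 b0 b1
  have lin : ∀ X Y : Pl →ᵇ Pl, T X = 1 → T Y = 1 →
      T (g1 • (X - Y)) = (1 / (2 * ‖g‖)) * (T (g • X) - T (g • Y)) := by
    intro X Y hX hY
    have e2 : g1 • (X - Y) = (1 / (2 * ‖g‖)) • ((g • X - g • Y) + ‖g‖ • (X - Y)) := by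
      ext1 y
      show g1 y • (X y - Y y) = (1 / (2 * ‖g‖)) • ((g y • X y - g y • Y y) + ‖g‖ • (X y - Y y))
      rw [e1, mul_smul, add_smul, smul_sub, smul_sub]
    rw [e2, map_smul, map_add, map_smul, map_sub, map_sub, hX, hY]
    simp
  rw [lin F G hTF hTG] at key1
  rw [lin G F hTG hTF] at key2
  rw [one_div, inv_mul_le_iff₀ (by positivity)] at key1 key2
  rw [abs_le]
  constructor <;> linarith

/-- (2): almost positivity. -/
theorem hjb_pos (h0 : ∀ᵐ y ∂(volume : Measure Pl), 0 ≤ a y)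
    (hT : ∀ (F : Pl →ᵇ Pl) (c : ℝ), (∀ᵐ y ∂(volume : Measure Pl), a y * ‖F y‖ ≤ c) → T F ≤ c)
    (F : Pl →ᵇ Pl) (c : ℝ)
    (hF : ∀ᵐ y ∂(volume : Measure Pl), a y * ‖F y‖ ≤ c)
    (hTF : T F = 1) (g : Pl →ᵇ ℝ) (hg : 0 ≤ g) :
    ‖g‖ * (1 - c) / 2 ≤ T (g • F) := by
  rcases eq_or_ne g 0 with rfl | hgz
  · rw [hjb_zero_smul]
    simp
  have hn : 0 < ‖g‖ := norm_pos_iff.2 hgz
  have h := hT (F - (2 / ‖g‖) • (g • F)) c (by
    filter_upwards [h0, hF] with y ha hf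
    have e : (F - (2 / ‖g‖) • (g • F)) y = (1 - 2 / ‖g‖ * g y) • F y := by
      show F y - (2 / ‖g‖) • (g y • F y) = _
      rw [sub_smul, one_smul, mul_smul]
    rw [e, norm_smul]
    have hg0 : 0 ≤ g y := hg y
    have hg1 : g y ≤ ‖g‖ := (abs_le.1 (g.norm_coe_le_norm y)).2
    have hb : ‖1 - 2 / ‖g‖ * g y‖ ≤ 1 := by
      rw [Real.norm_eq_abs, abs_le]
      have h1 : 2 / ‖g‖ * g y ≤ 2 := by
        rw [div_mul_eq_mul_div, div_le_iff₀ hn]
        linarith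
      have h2 : 0 ≤ 2 / ‖g‖ * g y := by positivity
      constructor <;> linarith
    have h3 : ‖1 - 2 / ‖g‖ * g y‖ * ‖F y‖ ≤ ‖F y‖ := by
      have := mul_le_mul_of_nonneg_right hb (norm_nonneg (F y))
      linarith
    exact (mul_le_mul_of_nonneg_left h3 ha).trans hf)
  rw [map_sub, map_smul, hTF, smul_eq_mul] at h
  have h4 : 1 - c ≤ 2 / ‖g‖ * T (g • F) := by linarith
  rw [div_mul_eq_mul_div, le_div_iff₀ hn] at h4
  linarith

/-- The pointwise inequality behind (4). -/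
theorem hjb_pt (A α c : ℝ) (u v : Pl) (hα : 0 < α) (hA : α ≤ A) (hc1 : 1 ≤ c) (hc2 : c ≤ 2)
    (hu : A * ‖u‖ ≤ c) (hv : A * ‖v‖ ≤ c) :
    A * ‖(1 + α ^ 2 / 32 * ‖u - v‖ ^ 2) • ((1 / 2 : ℝ) • (u + v))‖ ≤ c := by
  have hA0 : 0 < A := lt_of_lt_of_le hα hA
  set D : ℝ := ‖u - v‖ with hD
  set W : ℝ := ‖(1 / 2 : ℝ) • (u + v)‖ with hW
  have hD0 : 0 ≤ D := norm_nonneg _
  have hW0 : 0 ≤ W := norm_nonneg _
  have hpar : 4 * W ^ 2 + D ^ 2 = 2 * (‖u‖ ^ 2 + ‖v‖ ^ 2) := by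
    have h1 := parallelogram_law_with_norm ℝ u v
    have h2 : W = 1 / 2 * ‖u + v‖ := by
      rw [hW, norm_smul]
      norm_num
    rw [h2, hD]
    nlinarith [h1]
  have hu2 : A ^ 2 * ‖u‖ ^ 2 ≤ c ^ 2 := by
    have := mul_self_le_mul_self (by positivity) hu
    nlinarith
  have hv2 : A ^ 2 * ‖v‖ ^ 2 ≤ c ^ 2 := by
    have := mul_self_le_mul_self (by positivity) hv
    nlinarith
  have hWD : 4 * (A ^ 2 * W ^ 2) + A ^ 2 * D ^ 2 ≤ 4 * c ^ 2 := by
    have : A ^ 2 * (4 * W ^ 2 + D ^ 2) = A ^ 2 * (2 * (‖u‖ ^ 2 + ‖v‖ ^ 2)) := by rw [hpar]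
    nlinarith
  rw [norm_smul, ← hW]
  set t : ℝ := α ^ 2 / 32 * D ^ 2 with ht
  have ht0 : 0 ≤ t := by positivity
  rw [Real.norm_of_nonneg (by linarith)]
  -- reduce to squares
  apply le_of_sq_le_sq _ (by linarith)
  -- s := A² D² / (4 c²)
  have hc0 : 0 < c := by linarith
  set s : ℝ := A ^ 2 * D ^ 2 / (4 * c ^ 2) with hs
  have hs' : s * (4 * c ^ 2) = A ^ 2 * D ^ 2 := by
    rw [hs]; field_simp
  have hs0 : 0 ≤ s := by positivity
  have hAW0 : 0 ≤ A ^ 2 * W ^ 2 := by positivity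
  have hAW : A ^ 2 * W ^ 2 ≤ c ^ 2 * (1 - s) := by nlinarith
  have hs1 : s ≤ 1 := by
    by_contra hcon
    have : c ^ 2 * (1 - s) < 0 := by
      apply mul_neg_of_pos_of_neg (by positivity)
      linarith
    linarith
  have hts : t ≤ s / 2 := by
    have h1 : t * (8 * c ^ 2) ≤ A ^ 2 * D ^ 2 := by
      have h2 : t * (8 * c ^ 2) = α ^ 2 * D ^ 2 * (c ^ 2 / 4) := by rw [ht]; ring
      rw [h2]
      have h3 : c ^ 2 / 4 ≤ 1 := by nlinarith
      have h4 : α ^ 2 ≤ A ^ 2 := by nlinarith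
      have h5 : 0 ≤ α ^ 2 * D ^ 2 := by positivity
      calc α ^ 2 * D ^ 2 * (c ^ 2 / 4) ≤ α ^ 2 * D ^ 2 * 1 := mul_le_mul_of_nonneg_left h3 h5
        _ = α ^ 2 * D ^ 2 := by ring
        _ ≤ A ^ 2 * D ^ 2 := mul_le_mul_of_nonneg_right h4 (by positivity)
    have h6 : t * (8 * c ^ 2) ≤ s / 2 * (8 * c ^ 2) := by linarith
    exact le_of_mul_le_mul_right h6 (by positivity)
  have hfin : (1 - s) * (1 + t) ^ 2 ≤ 1 := by
    have h1 : (1 + t) ^ 2 ≤ (1 + s / 2) ^ 2 := by nlinarith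
    have h2 : (1 - s) * (1 + t) ^ 2 ≤ (1 - s) * (1 + s / 2) ^ 2 :=
      mul_le_mul_of_nonneg_left h1 (by linarith)
    have h3 : (1 - s) * (1 + s / 2) ^ 2 = 1 - 3 / 4 * s ^ 2 - s ^ 3 / 4 := by ring
    have h4 : 0 ≤ s ^ 2 := by positivity
    have h5 : 0 ≤ s ^ 3 := by positivity
    linarith
  calc (A * ((1 + t) * W)) ^ 2 = A ^ 2 * W ^ 2 * (1 + t) ^ 2 := by ring
    _ ≤ c ^ 2 * (1 - s) * (1 + t) ^ 2 := mul_le_mul_of_nonneg_right hAW (by positivity)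
    _ = c ^ 2 * ((1 - s) * (1 + t) ^ 2) := by ring
    _ ≤ c ^ 2 * 1 := mul_le_mul_of_nonneg_left hfin (by positivity)
    _ = c ^ 2 := by ring

theorem exists_lam (a : Pl → ℝ) (α β : ℝ) (hα : 0 < α)
    (ha : ∀ᵐ y ∂(volume : Measure Pl), α ≤ a y ∧ a y ≤ β)
    (T : (Pl →ᵇ Pl) →ₗ[ℝ] ℝ)
    (hT : ∀ (F : Pl →ᵇ Pl) (c : ℝ), (∀ᵐ y ∂(volume : Measure Pl), a y * ‖F y‖ ≤ c) → T F ≤ c)
    (F F' : ℕ → (Pl →ᵇ Pl)) (c : ℕ → ℝ) (hc1 : ∀ j, 1 ≤ c j) (hc2 : ∀ j, c j ≤ 2)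
    (hc : Tendsto c atTop (𝓝 1))
    (hF : ∀ j, ∀ᵐ y ∂(volume : Measure Pl), a y * ‖F j y‖ ≤ c j)
    (hF' : ∀ j, ∀ᵐ y ∂(volume : Measure Pl), a y * ‖F' j y‖ ≤ c j)
    (hTF : ∀ j, T (F j) = 1) (hTF' : ∀ j, T (F' j) = 1) :
    ∃ lam : (Pl →ᵇ ℝ) →ₗ[ℝ] ℝ, (∀ g : Pl →ᵇ ℝ, 0 ≤ g → 0 ≤ lam g) ∧ lam 1 = 1 ∧
      (∀ (g : Pl →ᵇ ℝ) (j : ℕ), |lam g - T (g • F j)| ≤ 2 * ‖g‖ * (c j - 1)) ∧
      (∀ (g : Pl →ᵇ ℝ) (j : ℕ), |T (g • F j) - T (g • F' j)| ≤ 2 * ‖g‖ * (c j - 1)) ∧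
      ∃ C : ℝ, ∀ (j : ℕ) (g : Pl →ᵇ ℝ), (∀ y, g y = ‖F j y - F' j y‖ ^ 2) →
        lam g ≤ C * (c j - 1) := by
  have h0 : ∀ᵐ y ∂(volume : Measure Pl), 0 ≤ a y := by
    filter_upwards [ha] with y hy
    linarith [hy.1]
  -- difference estimate with a common bound
  have pair : ∀ (X Y : Pl →ᵇ Pl) (cx cy : ℝ),
      (∀ᵐ y ∂(volume : Measure Pl), a y * ‖X y‖ ≤ cx) →
      (∀ᵐ y ∂(volume : Measure Pl), a y * ‖Y y‖ ≤ cy) → T X = 1 → T Y = 1 →
      ∀ g : Pl →ᵇ ℝ, |T (g • X) - T (g • Y)| ≤ 2 * ‖g‖ * (max cx cy - 1) := by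
    intro X Y cx cy hX hY hTX hTY g
    refine hjb_two a T h0 hT X Y (max cx cy) ?_ ?_ hTX hTY g
    · filter_upwards [hX] with y hy using hy.trans (le_max_left _ _)
    · filter_upwards [hY] with y hy using hy.trans (le_max_right _ _)
  have hmax : ∀ j, Tendsto (fun i => max (c i) (c j)) atTop (𝓝 (c j)) := by
    intro j
    have := hc.max (tendsto_const_nhds (x := c j))
    rwa [max_eq_right (hc1 j)] at this
  -- Cauchy
  have hcau : ∀ g : Pl →ᵇ ℝ, ∃ l : ℝ, Tendsto (fun i => T (g • F i)) atTop (𝓝 l) := by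
    intro g
    apply cauchySeq_tendsto_of_complete
    rw [Metric.cauchySeq_iff']
    intro ε hε
    have hpos : 0 < 2 * ‖g‖ + 1 := by positivity
    have hev : ∀ᶠ n in atTop, c n < 1 + ε / (2 * ‖g‖ + 1) := by
      apply hc.eventually_lt_const
      have : 0 < ε / (2 * ‖g‖ + 1) := by positivity
      linarith
    obtain ⟨N, hN⟩ := eventually_atTop.1 hev
    refine ⟨N, fun n hn => ?_⟩
    rw [Real.dist_eq]
    refine lt_of_le_of_lt (pair (F n) (F N) (c n) (c N) (hF n) (hF N) (hTF n) (hTF N) g) ?_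
    have hm : max (c n) (c N) - 1 < ε / (2 * ‖g‖ + 1) := by
      have h1 := hN n hn
      have h2 := hN N le_rfl
      have := max_lt h1 h2
      linarith
    have hm0 : 0 ≤ max (c n) (c N) - 1 := by
      have := le_max_left (c n) (c N)
      linarith [hc1 n]
    calc 2 * ‖g‖ * (max (c n) (c N) - 1) ≤ (2 * ‖g‖ + 1) * (max (c n) (c N) - 1) := by
          apply mul_le_mul_of_nonneg_right _ hm0
          linarith
      _ < (2 * ‖g‖ + 1) * (ε / (2 * ‖g‖ + 1)) := mul_lt_mul_of_pos_left hm hpos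
      _ = ε := by field_simp
  choose L hL using hcau
  let lam : (Pl →ᵇ ℝ) →ₗ[ℝ] ℝ :=
    { toFun := L
      map_add' := by
        intro g h
        apply tendsto_nhds_unique (hL (g + h))
        have := (hL g).add (hL h)
        refine this.congr fun i => ?_
        rw [hjb_add_smul, map_add]
      map_smul' := by
        intro r g
        apply tendsto_nhds_unique (hL (r • g))
        have := (hL g).const_mul r
        refine this.congr fun i => ?_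
        rw [hjb_smul_smul, T.map_smul, smul_eq_mul] }
  have hlam : ∀ g, Tendsto (fun i => T (g • F i)) atTop (𝓝 (lam g)) := hL
  refine ⟨lam, ?_, ?_, ?_, ?_, ?_⟩
  · intro g hg
    have h1 : Tendsto (fun i => ‖g‖ * (1 - c i) / 2) atTop (𝓝 (‖g‖ * (1 - 1) / 2)) :=
      (((hc.const_sub 1).const_mul ‖g‖).div_const 2)
    have h2 := le_of_tendsto_of_tendsto' h1 (hlam g)
      (fun i => hjb_pos a T h0 hT (F i) (c i) (hF i) (hTF i) g hg)
    simpa using h2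
  · apply tendsto_nhds_unique (hlam 1)
    have : (fun i => T ((1 : Pl →ᵇ ℝ) • F i)) = fun _ => (1 : ℝ) := by
      funext i
      rw [hjb_one_smul, hTF]
    rw [this]
    exact tendsto_const_nhds
  · intro g j
    have h1 : Tendsto (fun i => |T (g • F i) - T (g • F j)|) atTop (𝓝 |lam g - T (g • F j)|) :=
      ((hlam g).sub_const _).abs
    have h2 : Tendsto (fun i => 2 * ‖g‖ * (max (c i) (c j) - 1)) atTop
        (𝓝 (2 * ‖g‖ * (c j - 1))) := ((hmax j).sub_const 1).const_mul _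
    exact le_of_tendsto_of_tendsto' h1 h2
      (fun i => pair (F i) (F j) (c i) (c j) (hF i) (hF j) (hTF i) (hTF j) g)
  · intro g j
    exact hjb_two a T h0 hT (F j) (F' j) (c j) (hF j) (hF' j) (hTF j) (hTF' j) g
  · refine ⟨64 / α ^ 2, ?_⟩
    intro j g hg
    obtain ⟨V, hV⟩ : ∃ V : Pl →ᵇ Pl, V = (1 / 2 : ℝ) • (F j + F' j) := ⟨_, rfl⟩
    have hVy : ∀ y, V y = (1 / 2 : ℝ) • (F j y + F' j y)  := by
      intro y
      rw [hV]
      rfl
    have hTV : T V = 1 := by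
      rw [hV, map_smul, map_add, hTF, hTF']
      norm_num
    set κ : ℝ := α ^ 2 / 32 with hκ
    have hκ0 : 0 < κ := by positivity
    have hVa : ∀ᵐ y ∂(volume : Measure Pl), a y * ‖V y‖ ≤ c j := by
      filter_upwards [h0, hF j, hF' j] with y ha0 h1 h2
      rw [hVy, norm_smul]
      have h3 : ‖F j y + F' j y‖ ≤ ‖F j y‖ + ‖F' j y‖ := norm_add_le _ _
      have h4 := mul_le_mul_of_nonneg_left h3 ha0
      have h5 : ‖(1 / 2 : ℝ)‖ = 1 / 2 := by norm_num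
      rw [h5]
      nlinarith
    -- κ T (g • V) ≤ c_j - 1
    have hgV : κ * T (g • V) ≤ c j - 1 := by
      have h := hT (V + κ • (g • V)) (c j) (by
        filter_upwards [ha, hF j, hF' j] with y hay h1 h2
        have e : (V + κ • (g • V)) y =
            (1 + α ^ 2 / 32 * ‖F j y - F' j y‖ ^ 2) • ((1 / 2 : ℝ) • (F j y + F' j y)) := by
          show V y + κ • (g y • V y) = _
          rw [hg y, hVy, add_smul, one_smul, ← mul_smul]
        rw [e]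
        exact hjb_pt (a y) α (c j) (F j y) (F' j y) hα hay.1 (hc1 j) (hc2 j) h1 h2)
      rw [map_add, T.map_smul, hTV, smul_eq_mul] at h
      linarith
    -- the norm bound of g
    have hb : ∀ (X : Pl →ᵇ Pl), (∀ᵐ y ∂(volume : Measure Pl), a y * ‖X y‖ ≤ c j) →
        ∀ y, ‖X y‖ ≤ 2 / α := by
      intro X hX
      have hae : ∀ᵐ y ∂(volume : Measure Pl), ‖X y‖ ≤ 2 / α := by
        filter_upwards [ha, hX] with y hay hy
        rw [le_div_iff₀ hα]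
        have : α * ‖X y‖ ≤ a y * ‖X y‖ := mul_le_mul_of_nonneg_right hay.1 (norm_nonneg _)
        linarith [hc2 j]
      have hd := MeasureTheory.Measure.dense_of_ae hae
      have hcl : IsClosed {y : Pl | ‖X y‖ ≤ 2 / α} :=
        isClosed_le X.continuous.norm continuous_const
      have huniv : {y : Pl | ‖X y‖ ≤ 2 / α} = Set.univ := by
        rw [← hcl.closure_eq]
        exact hd.closure_eq
      intro y
      have : y ∈ {y : Pl | ‖X y‖ ≤ 2 / α} := by rw [huniv]; trivial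
      exact this
    have hgn : ‖g‖ ≤ 16 / α ^ 2 := by
      rw [BoundedContinuousFunction.norm_le (by positivity)]
      intro y
      rw [hg y, Real.norm_of_nonneg (by positivity)]
      have h1 := hb (F j) (hF j) y
      have h2 := hb (F' j) (hF' j) y
      have h3 : ‖F j y - F' j y‖ ≤ 4 / α := by
        refine (norm_sub_le _ _).trans ?_
        have : 4 / α = 2 / α + 2 / α := by ring
        linarith
      calc ‖F j y - F' j y‖ ^ 2 ≤ (4 / α) ^ 2 := by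
            apply pow_le_pow_left₀ (norm_nonneg _) h3
        _ = 16 / α ^ 2 := by ring
    have hcj : 0 ≤ c j - 1 := by linarith [hc1 j]
    -- T (g • F i) ≤ ...
    have hle : ∀ i, T (g • F i) ≤ (c j - 1) / κ + 2 * ‖g‖ * (max (c i) (c j) - 1) := by
      intro i
      have h1 := pair (F i) V (c i) (c j) (hF i) hVa (hTF i) hTV g
      have h2 := (abs_le.1 h1).2
      have h3 : T (g • V) ≤ (c j - 1) / κ := by
        rw [le_div_iff₀ hκ0]
        linarith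
      linarith
    have h1 : Tendsto (fun i => (c j - 1) / κ + 2 * ‖g‖ * (max (c i) (c j) - 1)) atTop
        (𝓝 ((c j - 1) / κ + 2 * ‖g‖ * (c j - 1))) :=
      (((hmax j).sub_const 1).const_mul _).const_add _
    have h2 : lam g ≤ (c j - 1) / κ + 2 * ‖g‖ * (c j - 1) :=
      le_of_tendsto_of_tendsto' (hlam g) h1 hle
    have h3 : 2 * ‖g‖ * (c j - 1) ≤ 2 * (16 / α ^ 2) * (c j - 1) := by
      apply mul_le_mul_of_nonneg_right _ hcj
      linarith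
    have h4 : (c j - 1) / κ = 32 / α ^ 2 * (c j - 1) := by
      rw [hκ]; field_simp
    calc lam g ≤ 32 / α ^ 2 * (c j - 1) + 2 * (16 / α ^ 2) * (c j - 1) := by
          rw [← h4]; linarith
      _ = 64 / α ^ 2 * (c j - 1) := by ring

end B

end Pool.Agent.R284.HJ
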