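import Mathlib
import Pool.Agent.R284.HJ.Defs

set_option autoImplicit false

namespace Pool.Agent.R284.HJ

open MeasureTheory Filter Topology
open scoped BoundedContinuousFunction NNReal Real

lemma ivec_apply (k : Fin 2 → ℤ) (i : Fin 2) : ivec k i = (k i : ℝ) := rfl

lemma exists_cube (x : Pl) : ∃ (y : Pl) (k : Fin 2 → ℤ), x = y + ivec k ∧ ‖y‖ ≤ 2 := by
  refine ⟨x - ivec (fun i => ⌊x i⌋), fun i => ⌊x i⌋, by abel, ?_⟩
  rw [EuclideanSpace.norm_eq]
  rw [Real.sqrt_le_left (by norm_num)]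
  have h : ∀ i : Fin 2, ‖(x - ivec (fun i => ⌊x i⌋)) i‖ ^ 2 ≤ 1 := by
    intro i
    have e : (x - ivec (fun i => ⌊x i⌋)) i = Int.fract (x i) := by
      simp [ivec_apply]
    rw [e, Real.norm_eq_abs, sq_abs]
    have h0 := Int.fract_nonneg (x i)
    have h1 := (Int.fract_lt_one (x i)).le
    nlinarith
  calc ∑ i, ‖(x - ivec (fun i => ⌊x i⌋)) i‖ ^ 2 ≤ ∑ _i : Fin 2, (1 : ℝ) :=
        Finset.sum_le_sum fun i _ => h i
    _ ≤ 2 ^ 2 := by simp; norm_num

lemma Per.bounded {F : Type*} [NormedAddCommGroup F] {f : Pl → F} (hf : Per f)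
    (hc : Continuous f) : ∃ C : ℝ, ∀ x, ‖f x‖ ≤ C := by
  obtain ⟨C, hC⟩ := (isCompact_closedBall (0 : Pl) 2).exists_bound_of_continuousOn hc.continuousOn
  refine ⟨C, fun x => ?_⟩
  obtain ⟨y, k, rfl, hy⟩ := exists_cube x
  rw [hf]
  exact hC y (by simpa using hy)

lemma continuous_gradient {φ : Pl → ℝ} (h : ContDiff ℝ 1 φ) : Continuous (gradient φ) := by
  unfold gradient
  exact (InnerProductSpace.toDual ℝ Pl).symm.continuous.comp (h.continuous_fderiv (by norm_num))

lemma hasGradientAt {φ : Pl → ℝ} (h : ContDiff ℝ 1 φ) (x : Pl) :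
    HasGradientAt φ (gradient φ x) x :=
  (h.differentiable (by norm_num) x).hasGradientAt

lemma per_gradient {φ : Pl → ℝ} (h : ContDiff ℝ 1 φ) (hp : Per φ) : Per (gradient φ) := by
  intro x k
  have h1 : HasGradientAt φ (gradient φ (x + ivec k)) (x + ivec k) := hasGradientAt h _
  have h2 : HasGradientAt φ (gradient φ (x + ivec k)) x := by
    have h3 : HasFDerivAt (fun y => φ (y + ivec k))
        (InnerProductSpace.toDual ℝ Pl (gradient φ (x + ivec k))) x := by
      have h4 := h1.hasFDerivAt.comp x ((hasFDerivAt_id x).add_const (ivec k))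
      exact h4
    have e : (fun y => φ (y + ivec k)) = φ := by
      funext y; exact hp y k
    rw [e] at h3
    exact h3
  exact h2.gradient.symm

/-- lower bound: a.e. inequality between continuous functions holds everywhere -/
lemma everywhere_of_ae {f : Pl → ℝ} (hf : Continuous f) (c : ℝ)
    (h : ∀ᵐ y ∂(volume : Measure Pl), f y ≤ c) (y : Pl) : f y ≤ c := by
  by_contra hcon
  push Not at hcon
  have hopen : IsOpen {y | c < f y} := isOpen_lt continuous_const hf
  have hpos := hopen.measure_pos (volume : Measure Pl) ⟨y, hcon⟩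
  have h0 : volume {y : Pl | ¬ (f y ≤ c)} = 0 := h
  have e : {y : Pl | ¬ (f y ≤ c)} = {y | c < f y} := by
    ext y; simp
  rw [e] at h0
  exact hpos.ne' h0

end Pool.Agent.R284.HJ
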