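import Mathlib
import Pool.Agent.R284.HJ.Defs

set_option autoImplicit false

namespace Pool.Agent.R284.HJ

open MeasureTheory Filter Topology
open scoped BoundedContinuousFunction NNReal Real

/-- The torus. -/
abbrev Tor : Type := UnitAddTorus (Fin 2)

/-- The projection from the plane to the torus. -/
noncomputable def piT (x : Pl) : Tor := fun i => ((x i : ℝ) : UnitAddCircle)

/-- A section of the projection. -/
noncomputable def sT (ξ : Tor) : Pl := WithLp.toLp 2 (fun i => (AddCircle.equivIoc 1 0 (ξ i)).1)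

theorem piT_sT (ξ : Tor) : piT (sT ξ) = ξ := by
  funext i
  show (((AddCircle.equivIoc 1 0 (ξ i)).1 : ℝ) : UnitAddCircle) = ξ i
  exact (AddCircle.equivIoc (1 : ℝ) 0).symm_apply_apply (ξ i)

theorem measurable_sT : Measurable sT := by
  have h1 : Measurable (fun ξ : Tor => fun i => ((AddCircle.equivIoc 1 0 (ξ i)).1 : ℝ)) := by
    refine measurable_pi_lambda _ (fun i => ?_)
    exact measurable_subtype_coe.comp
      ((AddCircle.measurableEquivIoc (1 : ℝ) 0).measurable.comp (measurable_pi_apply i))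
  exact (MeasurableEquiv.toLp 2 (Fin 2 → ℝ)).measurable.comp h1

theorem piT_quot : IsOpenQuotientMap piT := by
  have h1 : IsOpenQuotientMap (fun x : Fin 2 → ℝ => (fun i => ((x i : ℝ) : UnitAddCircle) : Tor)) :=
    IsOpenQuotientMap.piMap (fun _ => QuotientAddGroup.isOpenQuotientMap_mk)
  have h2 : IsOpenQuotientMap (fun x : Pl => (fun i => x i : Fin 2 → ℝ)) :=
    (PiLp.homeomorph 2 (fun _ : Fin 2 => ℝ)).isOpenQuotientMap
  exact h1.comp h2

theorem exists_ivec {x y : Pl} (h : piT x = piT y) : ∃ k : Fin 2 → ℤ, x = y + ivec k := by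
  have h1 : ∀ i, ∃ n : ℤ, x i - y i = n := by
    intro i
    have h2 : ((x i : ℝ) : UnitAddCircle) = ((y i : ℝ) : UnitAddCircle) := congrFun h i
    have h3 : ((x i - y i : ℝ) : UnitAddCircle) = 0 := by
      rw [AddCircle.coe_sub, h2, sub_self]
    rw [AddCircle.coe_eq_zero_iff] at h3
    obtain ⟨n, hn⟩ := h3
    refine ⟨n, ?_⟩
    rw [← hn]; simp
  choose k hk using h1
  refine ⟨k, ?_⟩
  ext i
  simp only [PiLp.add_apply, ivec]
  linarith [hk i]

end Pool.Agent.R284.HJ
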