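import Mathlib
import Pool.Agent.R284.HJ.Defs
import Pool.Agent.R284.HJ.Tor

set_option autoImplicit false

namespace Pool.Agent.R284.HJ

open MeasureTheory Filter Topology
open scoped BoundedContinuousFunction NNReal Real CompactlySupported

/-- Composition of a continuous function on the torus with the projection. -/
noncomputable def pull (h : C_c(Tor, ℝ)) : Pl →ᵇ ℝ :=
  (BoundedContinuousFunction.mkOfCompact h.toContinuousMap).compContinuous
    ⟨piT, piT_quot.continuous⟩

theorem pull_apply (h : C_c(Tor, ℝ)) (x : Pl) : pull h x = h (piT x) := rfl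

theorem exists_nu (lam : (Pl →ᵇ ℝ) →ₗ[ℝ] ℝ) (hpos : ∀ g : Pl →ᵇ ℝ, 0 ≤ g → 0 ≤ lam g)
    (h1 : lam 1 = 1) :
    ∃ ν : Measure Pl, IsProbabilityMeasure ν ∧ ∀ g : Pl →ᵇ ℝ, Per g → ∫ x, g x ∂ν = lam g := by
  have hadd : ∀ f g : C_c(Tor, ℝ), pull (f + g) = pull f + pull g := by
    intro f g; ext x; rfl
  have hsmul : ∀ (c : ℝ) (f : C_c(Tor, ℝ)), pull (c • f) = c • pull f := by
    intro c f; ext x; rfl
  let Λ : C_c(Tor, ℝ) →ₚ[ℝ] ℝ :=
  { toFun g := lam (pull g)
    map_add' g g' := by rw [hadd, map_add]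
    map_smul' c g := by rw [hsmul, map_smul]; rfl
    monotone' g g' hgg' := by
      have h2 : 0 ≤ lam (pull g' - pull g) := by
        apply hpos
        intro x
        have := hgg' (piT x)
        exact sub_nonneg.2 this
      rw [map_sub] at h2
      exact sub_nonneg.1 h2 }
  let μ : Measure Tor := RealRMK.rieszMeasure Λ
  have hμ : ∀ h : C_c(Tor, ℝ), ∫ ξ, h ξ ∂μ = lam (pull h) := fun h =>
    RealRMK.integral_rieszMeasure Λ h
  have hfin : IsFiniteMeasure μ := inferInstance
  have hone : μ.real Set.univ = 1 := by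
    have h3 := hμ ⟨1, HasCompactSupport.of_compactSpace 1⟩
    have h4 : pull ⟨1, HasCompactSupport.of_compactSpace 1⟩ = 1 := by ext x; rfl
    rw [h4, h1] at h3
    have h5 : ∫ ξ, ((⟨1, HasCompactSupport.of_compactSpace 1⟩ : C_c(Tor, ℝ)) : Tor → ℝ) ξ ∂μ
        = ∫ _ξ : Tor, (1 : ℝ) ∂μ := rfl
    rw [h5] at h3
    simpa using h3
  refine ⟨μ.map sT, ?_, ?_⟩
  · have hp : IsProbabilityMeasure μ := by
      constructor
      have := hone
      rw [Measure.real] at this
      have h6 : μ Set.univ ≠ ⊤ := measure_ne_top _ _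
      rw [← ENNReal.ofReal_toReal h6, this]; simp
    exact Measure.isProbabilityMeasure_map measurable_sT.aemeasurable
  · intro g hg
    rw [integral_map measurable_sT.aemeasurable g.continuous.aestronglyMeasurable]
    have hper : ∀ x y : Pl, piT x = piT y → g x = g y := by
      intro x y hxy
      obtain ⟨k, rfl⟩ := exists_ivec hxy
      exact hg y k
    have hc : Continuous (fun ξ : Tor => g (sT ξ)) := by
      rw [← piT_quot.continuous_comp_iff]
      have : (fun ξ : Tor => g (sT ξ)) ∘ piT = g := by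
        funext x
        exact hper _ _ (piT_sT _)
      rw [this]
      exact g.continuous
    have h7 := hμ ⟨⟨fun ξ : Tor => g (sT ξ), hc⟩, HasCompactSupport.of_compactSpace _⟩
    have h8 : pull ⟨⟨fun ξ : Tor => g (sT ξ), hc⟩, HasCompactSupport.of_compactSpace _⟩ = g := by
      ext x
      exact hper _ _ (piT_sT _)
    rw [h8] at h7
    exact h7

end Pool.Agent.R284.HJ
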