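import Mathlib
import Pool.Agent.R284.HJ.Defs

/-! HJ-D: exists_limit (helper806). -/

set_option autoImplicit false

namespace Pool.Agent.R284.HJ

open MeasureTheory Filter Topology
open scoped BoundedContinuousFunction NNReal Real

theorem exists_limit (L : ℝ≥0) (f : ℕ → Pl → ℝ) (hf : ∀ j, LipschitzWith L (f j))
    (h0 : ∀ j, f j 0 = 0) :
    ∃ (s : ℕ → ℕ) (g : Pl → ℝ), StrictMono s ∧ LipschitzWith L g ∧
      ∀ x, Tendsto (fun j => f (s j) x) atTop (𝓝 (g x)) := by
  have hcomp : IsCompact (Set.pi Set.univ fun n : ℕ =>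
      Set.Icc (-((L : ℝ) * ‖TopologicalSpace.denseSeq Pl n‖)) ((L : ℝ) * ‖TopologicalSpace.denseSeq Pl n‖)) :=
    isCompact_univ_pi fun n => isCompact_Icc
  obtain ⟨a, -, s, hs, hlim⟩ := hcomp.tendsto_subseq (x := fun j n => f j (TopologicalSpace.denseSeq Pl n))
    (fun j n _ => by
      have h1 := (hf j).dist_le_mul (TopologicalSpace.denseSeq Pl n) 0
      rw [h0 j, dist_zero_right, dist_zero_right, Real.norm_eq_abs] at h1
      exact abs_le.1 h1)
  have hpt : ∀ n, Tendsto (fun j => f (s j) (TopologicalSpace.denseSeq Pl n)) atTop (𝓝 (a n)) :=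
    fun n => (tendsto_pi_nhds.1 hlim) n
  have hcau : ∀ x, CauchySeq (fun j => f (s j) x) := by
    intro x
    rw [Metric.cauchySeq_iff]
    intro ε hε
    have hL0 : (0 : ℝ) ≤ L := L.2
    have hL : (0 : ℝ) < (L : ℝ) + 1 := by linarith
    obtain ⟨n, hn⟩ := (TopologicalSpace.denseRange_denseSeq Pl).exists_dist_lt x
      (show (0 : ℝ) < ε / 3 / ((L : ℝ) + 1) by positivity)
    rw [lt_div_iff₀ hL] at hn
    have hn' : (L : ℝ) * dist x (TopologicalSpace.denseSeq Pl n) < ε / 3 := by
      have := dist_nonneg (x := x) (y := TopologicalSpace.denseSeq Pl n)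
      nlinarith
    obtain ⟨N, hN⟩ := Metric.cauchySeq_iff.1 (hpt n).cauchySeq (ε / 3) (by positivity)
    refine ⟨N, fun m hm k hk => ?_⟩
    have h1 := hN m hm k hk
    have h2 := (hf (s m)).dist_le_mul x (TopologicalSpace.denseSeq Pl n)
    have h3 := (hf (s k)).dist_le_mul x (TopologicalSpace.denseSeq Pl n)
    have h4 := dist_triangle4 (f (s m) x) (f (s m) (TopologicalSpace.denseSeq Pl n)) (f (s k) (TopologicalSpace.denseSeq Pl n))
      (f (s k) x)
    rw [dist_comm (f (s k) (TopologicalSpace.denseSeq Pl n)) (f (s k) x)] at h4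
    linarith
  choose g hg using fun x => cauchySeq_tendsto_of_complete (hcau x)
  refine ⟨s, g, hs, LipschitzWith.of_dist_le_mul fun x y => ?_, hg⟩
  exact le_of_tendsto ((hg x).dist (hg y)) (Eventually.of_forall fun j => (hf (s j)).dist_le_mul x y)

end Pool.Agent.R284.HJ
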