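import Mathlib
import Pool.Agent.R284.HJ.Defs
import Pool.Agent.R284.HJ.Tor

set_option autoImplicit false

namespace Pool.Agent.R284.HJ

open MeasureTheory Filter Topology
open scoped BoundedContinuousFunction NNReal Real

noncomputable local instance : MeasureSpace UnitAddCircle := ⟨AddCircle.haarAddCircle⟩

local instance : Measure.IsAddHaarMeasure (volume : Measure UnitAddCircle) :=
  inferInstanceAs (Measure.IsAddHaarMeasure AddCircle.haarAddCircle)

local instance : IsProbabilityMeasure (volume : Measure UnitAddCircle) :=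
  inferInstanceAs (IsProbabilityMeasure AddCircle.haarAddCircle)

/-- Haar measure of the torus. -/
noncomputable def hT : Measure Tor := (volume : Measure (Fin 2 → UnitAddCircle))

noncomputable instance : IsProbabilityMeasure hT := by
  unfold hT; infer_instance

theorem hT_integral_mFourier (k : Fin 2 → ℤ) (hk : k ≠ 0) :
    ∫ ξ, UnitAddTorus.mFourier k ξ ∂hT = 0 := by
  obtain ⟨i, hi⟩ : ∃ i, k i ≠ 0 := by
    by_contra h
    push Not at h
    exact hk (funext h)
  let a : Tor := fun j => if j = i then ((1 / 2 / (k i : ℝ) : ℝ) : UnitAddCircle) else 0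
  have ha : UnitAddTorus.mFourier k a = -1 := by
    simp only [UnitAddTorus.mFourier, ContinuousMap.coe_mk]
    rw [Finset.prod_eq_single i]
    · simp only [a, if_true]
      rw [fourier_coe_apply]
      have hk' : (k i : ℂ) ≠ 0 := by exact_mod_cast hi
      rw [← Complex.exp_pi_mul_I]
      congr 1
      push_cast
      field_simp
    · intro j _ hj
      simp only [a, if_neg hj]
      exact fourier_eval_zero _
    · intro h; exact absurd (Finset.mem_univ _) h
  have h1 : ∫ ξ, UnitAddTorus.mFourier k (ξ + a) ∂hT = ∫ ξ, UnitAddTorus.mFourier k ξ ∂hT := by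
    unfold hT
    exact integral_add_right_eq_self _ a
  have h2 : ∀ ξ : Tor, UnitAddTorus.mFourier k (ξ + a)
      = UnitAddTorus.mFourier k ξ * UnitAddTorus.mFourier k a := by
    intro ξ
    simp only [UnitAddTorus.mFourier, ContinuousMap.coe_mk, ← Finset.prod_mul_distrib]
    refine Finset.prod_congr rfl (fun j _ => ?_)
    rw [Pi.add_apply, fourier_apply, fourier_apply, fourier_apply, smul_add,
      AddCircle.toCircle_add, Circle.coe_mul]
  simp_rw [h2, ha] at h1
  rw [integral_mul_const] at h1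
  have h3 : (2 : ℂ) * ∫ ξ, UnitAddTorus.mFourier k ξ ∂hT = 0 := by linear_combination (-1 : ℂ) * h1
  simpa using h3

theorem mFourier_piT (k : Fin 2 → ℤ) (y : Pl) : UnitAddTorus.mFourier k (piT y)
    = ((Real.cos (2 * π * ((k 0 : ℝ) * y 0 + (k 1 : ℝ) * y 1)) : ℝ) : ℂ)
      + ((Real.sin (2 * π * ((k 0 : ℝ) * y 0 + (k 1 : ℝ) * y 1)) : ℝ) : ℂ) * Complex.I := by
  simp only [UnitAddTorus.mFourier, ContinuousMap.coe_mk, Fin.prod_univ_two, piT]
  rw [fourier_coe_apply, fourier_coe_apply, ← Complex.exp_add]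
  rw [Complex.ofReal_cos, Complex.ofReal_sin, ← Complex.exp_mul_I]
  congr 1
  push_cast
  ring

/-- The integral against a finite measure as a continuous linear map. -/
theorem integral_eq_of_mFourier (μ₁ μ₂ : Measure Tor) [IsProbabilityMeasure μ₁]
    [IsProbabilityMeasure μ₂]
    (h : ∀ k : Fin 2 → ℤ, ∫ ξ, UnitAddTorus.mFourier k ξ ∂μ₁ = ∫ ξ, UnitAddTorus.mFourier k ξ ∂μ₂)
    (f : C(Tor, ℂ)) : ∫ ξ, f ξ ∂μ₁ = ∫ ξ, f ξ ∂μ₂ := by
  have hint : ∀ (μ : Measure Tor) [IsProbabilityMeasure μ] (f : C(Tor, ℂ)),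
      Integrable (fun ξ => f ξ) μ := by
    intro μ _ f
    exact f.continuous.integrable_of_hasCompactSupport (HasCompactSupport.of_compactSpace _)
  let L : ∀ (μ : Measure Tor) [IsProbabilityMeasure μ], C(Tor, ℂ) →L[ℂ] ℂ := fun μ _ =>
    LinearMap.mkContinuous
      { toFun := fun f => ∫ ξ, f ξ ∂μ
        map_add' := fun f g => integral_add (hint μ f) (hint μ g)
        map_smul' := fun c f => integral_smul c (fun ξ => f ξ) } 1 (by
        intro f
        have := norm_integral_le_of_norm_le_const (μ := μ) (f := fun ξ => f ξ) (C := ‖f‖)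
          (Eventually.of_forall (fun ξ => f.norm_coe_le_norm ξ))
        simpa using this)
  have hL : ∀ (μ : Measure Tor) [IsProbabilityMeasure μ] (f : C(Tor, ℂ)),
      L μ f = ∫ ξ, f ξ ∂μ := fun μ _ f => rfl
  let V : Submodule ℂ C(Tor, ℂ) := LinearMap.ker ((L μ₁ - L μ₂ : C(Tor, ℂ) →L[ℂ] ℂ) : C(Tor, ℂ) →ₗ[ℂ] ℂ)
  have hclosed : IsClosed (V : Set C(Tor, ℂ)) := (L μ₁ - L μ₂).isClosed_ker
  have hspan : Submodule.span ℂ (Set.range (UnitAddTorus.mFourier (d := Fin 2))) ≤ V := by
    rw [Submodule.span_le]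
    rintro _ ⟨k, rfl⟩
    show (L μ₁ - L μ₂) (UnitAddTorus.mFourier k) = 0
    rw [sub_apply, hL, hL, h k, sub_self]
  have htop : V = ⊤ := by
    rw [eq_top_iff, ← UnitAddTorus.span_mFourier_closure_eq_top (d := Fin 2)]
    exact Submodule.topologicalClosure_minimal _ hspan hclosed
  have hf : f ∈ V := by rw [htop]; trivial
  have h2 : (L μ₁ - L μ₂) f = 0 := hf
  rw [sub_apply, hL, hL] at h2
  exact sub_eq_zero.1 h2

theorem measure_eq_of_mFourier (μ₁ μ₂ : Measure Tor) [IsProbabilityMeasure μ₁]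
    [IsProbabilityMeasure μ₂]
    (h : ∀ k : Fin 2 → ℤ, ∫ ξ, UnitAddTorus.mFourier k ξ ∂μ₁ = ∫ ξ, UnitAddTorus.mFourier k ξ ∂μ₂) :
    μ₁ = μ₂ := by
  apply ext_of_forall_integral_eq_of_IsFiniteMeasure
  intro f
  have h1 := integral_eq_of_mFourier μ₁ μ₂ h ⟨fun ξ => ((f ξ : ℝ) : ℂ), by fun_prop⟩
  simp only [ContinuousMap.coe_mk] at h1
  rw [integral_complex_ofReal, integral_complex_ofReal] at h1
  exact_mod_cast h1

theorem hT_null (D : Set Pl) (hD : MeasurableSet D) (h0 : volume D = 0) :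
    hT (sT ⁻¹' D) = 0 := by
  have hm : MeasurableSet (sT ⁻¹' D) := measurable_sT hD
  rw [← lintegral_indicator_one hm]
  unfold hT
  rw [UnitAddTorus.lintegral_preimage _ 0]
  have hms : MeasurableSet {x : Fin 2 → ℝ | ∀ i, x i ∈ Set.Ioc ((0 : Fin 2 → ℝ) i) ((0 : Fin 2 → ℝ) i + 1)} :=
    MeasurableSet.univ_pi' (fun i => measurableSet_Ioc)
  rw [← lintegral_indicator hms]
  have h1 : volume ((WithLp.toLp 2 : (Fin 2 → ℝ) → Pl) ⁻¹' D) = 0 := by
    rw [(PiLp.volume_preserving_toLp (Fin 2)).measure_preimage hD.nullMeasurableSet, h0]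
  refine le_antisymm ?_ bot_le
  refine le_trans (lintegral_mono (g := Set.indicator ((WithLp.toLp 2 : (Fin 2 → ℝ) → Pl) ⁻¹' D) 1) ?_) ?_
  · intro x
    by_cases hx : x ∈ {x : Fin 2 → ℝ | ∀ i, x i ∈ Set.Ioc ((0 : Fin 2 → ℝ) i) ((0 : Fin 2 → ℝ) i + 1)}
    · rw [Set.indicator_of_mem hx]
      have h2 : sT (fun i => ((x i : ℝ) : UnitAddCircle)) = WithLp.toLp 2 x := by
        unfold sT
        congr 1
        funext i
        have h3 := hx i
        simp only [Pi.zero_apply] at h3
        exact AddCircle.equivIoc_coe_of_mem (p := (1 : ℝ)) (a := (0 : ℝ)) h3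
      by_cases h4 : WithLp.toLp 2 x ∈ D
      · rw [Set.indicator_of_mem (show x ∈ (WithLp.toLp 2 : (Fin 2 → ℝ) → Pl) ⁻¹' D from h4),
          Set.indicator_of_mem]
        · exact le_refl _
        · show sT _ ∈ D
          rw [h2]; exact h4
      · rw [Set.indicator_of_notMem]
        · exact bot_le
        · show ¬ (sT _ ∈ D)
          rw [h2]; exact h4
    · rw [Set.indicator_of_notMem hx]; exact bot_le
  · have hmD : MeasurableSet ((WithLp.toLp 2 : (Fin 2 → ℝ) → Pl) ⁻¹' D) :=
      (MeasurableEquiv.toLp 2 (Fin 2 → ℝ)).measurable hD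
    rw [lintegral_indicator_one hmD, h1]

theorem null_of_fourier (ν : Measure Pl) [IsProbabilityMeasure ν] (G : Pl → Pl)
    (hG : Continuous G)
    (hc : ∀ k : Fin 2 → ℤ, k ≠ 0 →
      ∫ x, Real.cos (2 * π * ((k 0 : ℝ) * G x 0 + (k 1 : ℝ) * G x 1)) ∂ν = 0)
    (hs : ∀ k : Fin 2 → ℤ, k ≠ 0 →
      ∫ x, Real.sin (2 * π * ((k 0 : ℝ) * G x 0 + (k 1 : ℝ) * G x 1)) ∂ν = 0)
    (S : Set Pl) (hS : volume (G '' S) = 0) : ν S = 0 := by
  have hm : Continuous (fun x => piT (G x)) := piT_quot.continuous.comp hG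
  have hmm : Measurable (fun x => piT (G x)) := hm.measurable
  have hprob : IsProbabilityMeasure (ν.map (fun x => piT (G x))) :=
    Measure.isProbabilityMeasure_map hmm.aemeasurable
  have hG0 : Continuous (fun x => G x 0) := by fun_prop
  have hG1 : Continuous (fun x => G x 1) := by fun_prop
  have hic : ∀ k : Fin 2 → ℤ, Integrable
      (fun x => Real.cos (2 * π * ((k 0 : ℝ) * G x 0 + (k 1 : ℝ) * G x 1))) ν := by
    intro k
    refine Integrable.of_bound (C := 1) (Continuous.aestronglyMeasurable (by fun_prop))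
      (Eventually.of_forall (fun x => ?_))
    rw [Real.norm_eq_abs]; exact Real.abs_cos_le_one _
  have his : ∀ k : Fin 2 → ℤ, Integrable
      (fun x => Real.sin (2 * π * ((k 0 : ℝ) * G x 0 + (k 1 : ℝ) * G x 1))) ν := by
    intro k
    refine Integrable.of_bound (C := 1) (Continuous.aestronglyMeasurable (by fun_prop))
      (Eventually.of_forall (fun x => ?_))
    rw [Real.norm_eq_abs]; exact Real.abs_sin_le_one _
  have heq : ν.map (fun x => piT (G x)) = hT := by
    apply measure_eq_of_mFourier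
    intro k
    by_cases hk : k = 0
    · subst hk
      rw [UnitAddTorus.mFourier_zero]
      simp
    · rw [hT_integral_mFourier k hk,
        integral_map hmm.aemeasurable (UnitAddTorus.mFourier k).continuous.aestronglyMeasurable]
      simp_rw [mFourier_piT]
      rw [integral_add (hic k).ofReal ((his k).ofReal.mul_const _), integral_mul_const,
        integral_complex_ofReal, integral_complex_ofReal, hc k hk, hs k hk]
      simp
  -- the null set
  let B : Set Pl := toMeasurable volume (G '' S)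
  have hB : MeasurableSet B := measurableSet_toMeasurable _ _
  have hB0 : volume B = 0 := by rw [measure_toMeasurable]; exact hS
  let C : Set Tor := ⋃ k : Fin 2 → ℤ, sT ⁻¹' ((fun y => y + ivec k) ⁻¹' B)
  have hD : ∀ k : Fin 2 → ℤ, MeasurableSet ((fun y : Pl => y + ivec k) ⁻¹' B) := fun k =>
    (measurable_add_const _) hB
  have hCm : MeasurableSet C := MeasurableSet.iUnion (fun k => measurable_sT (hD k))
  have hC0 : hT C = 0 := by
    rw [measure_iUnion_null_iff]
    intro k
    apply hT_null _ (hD k)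
    rw [measure_preimage_add_right]
    exact hB0
  have hsub : S ⊆ (fun x => piT (G x)) ⁻¹' C := by
    intro x hx
    obtain ⟨k, hk⟩ := exists_ivec (x := G x) (y := sT (piT (G x))) (piT_sT _).symm
    refine Set.mem_iUnion.2 ⟨k, ?_⟩
    show sT (piT (G x)) + ivec k ∈ B
    rw [← hk]
    exact subset_toMeasurable _ _ (Set.mem_image_of_mem G hx)
  refine le_antisymm (le_trans (measure_mono hsub) ?_) bot_le
  rw [← Measure.map_apply hmm hCm, heq, hC0]

end Pool.Agent.R284.HJ
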