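import Mathlib
import Pool.Agent.R284.HJ.Basic

set_option autoImplicit false

namespace Pool.Agent.R284.HJ

open MeasureTheory Filter Topology
open scoped BoundedContinuousFunction NNReal Real

lemma bddUnder {a : Pl → ℝ} (ha : Admissible a) {φ : Pl → ℝ} (hφ : ContDiff ℝ 1 φ) (hp : Per φ)
    (p : Pl) : ∃ B : ℝ, ∀ᵐ y ∂(volume : Measure Pl), a y * ‖p + gradient φ y‖ ≤ B := by
  obtain ⟨-, -, α, β, hα, hab⟩ := ha
  obtain ⟨C, hC⟩ := (per_gradient hφ hp).bounded (continuous_gradient hφ)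
  refine ⟨β * (‖p‖ + C), ?_⟩
  filter_upwards [hab] with y hy
  have h1 : ‖p + gradient φ y‖ ≤ ‖p‖ + C := (norm_add_le _ _).trans (by linarith [hC y])
  have hβ : 0 ≤ β := by linarith [hy.1, hy.2]
  exact mul_le_mul hy.2 h1 (norm_nonneg _) hβ

lemma ae_le_of_essSup_lt {a : Pl → ℝ} (ha : Admissible a) {φ : Pl → ℝ} (hφ : ContDiff ℝ 1 φ)
    (hp : Per φ) (p : Pl) (c : ℝ)
    (h : essSup (fun y => a y * ‖p + gradient φ y‖) (volume : Measure Pl) ≤ c) :
    ∀ᵐ y ∂(volume : Measure Pl), a y * ‖p + gradient φ y‖ ≤ c := by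
  obtain ⟨B, hB⟩ := bddUnder ha hφ hp p
  have h1 := ae_le_essSup (μ := (volume : Measure Pl))
    (f := fun y => a y * ‖p + gradient φ y‖) ⟨B, by simpa using hB⟩
  filter_upwards [h1] with y hy
  exact hy.trans h

lemma essSup_le {a : Pl → ℝ} (ha : Admissible a) {φ : Pl → ℝ} (p : Pl) (c : ℝ)
    (h : ∀ᵐ y ∂(volume : Measure Pl), a y * ‖p + gradient φ y‖ ≤ c) :
    essSup (fun y => a y * ‖p + gradient φ y‖) (volume : Measure Pl) ≤ c := by
  obtain ⟨-, -, α, β, hα, hab⟩ := ha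
  refine essSup_le_of_ae_le c h ?_
  refine ⟨0, fun b hb => ?_⟩
  have hb' : ∀ᵐ y ∂(volume : Measure Pl), a y * ‖p + gradient φ y‖ ≤ b := by simpa using hb
  obtain ⟨y, hy1, hy2⟩ := (hb'.and hab).exists
  exact le_trans (mul_nonneg (hα.le.trans hy2.1) (norm_nonneg _)) hy1

lemma essSup_nonneg' {a : Pl → ℝ} (ha : Admissible a) {φ : Pl → ℝ} (hφ : ContDiff ℝ 1 φ)
    (hp : Per φ) (p : Pl) :
    0 ≤ essSup (fun y => a y * ‖p + gradient φ y‖) (volume : Measure Pl) := by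
  have h := ae_le_of_essSup_lt ha hφ hp p _ le_rfl
  obtain ⟨-, -, α, β, hα, hab⟩ := ha
  obtain ⟨y, hy1, hy2⟩ := (h.and hab).exists
  exact le_trans (mul_nonneg (hα.le.trans hy2.1) (norm_nonneg _)) hy1

lemma effH_le {a : Pl → ℝ} (ha : Admissible a) {φ : Pl → ℝ} (hφ : ContDiff ℝ 1 φ)
    (hp : Per φ) (p : Pl) (c : ℝ)
    (h : ∀ᵐ y ∂(volume : Measure Pl), a y * ‖p + gradient φ y‖ ≤ c) : effH a p ≤ c := by
  have hbdd : BddBelow {r : ℝ | ∃ φ : Pl → ℝ, ContDiff ℝ 1 φ ∧ Per φ ∧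
      r = essSup (fun y => a y * ‖p + gradient φ y‖) (volume : Measure Pl)} := by
    refine ⟨0, ?_⟩
    rintro r ⟨ψ, h1, h2, rfl⟩
    exact essSup_nonneg' ha h1 h2 p
  exact (csInf_le hbdd ⟨φ, hφ, hp, rfl⟩).trans (essSup_le ha p c h)

lemma exists_near {a : Pl → ℝ} (ha : Admissible a) (p : Pl) (h : effH a p ≤ 1) (c : ℝ)
    (hc : 1 < c) : ∃ φ : Pl → ℝ, ContDiff ℝ 1 φ ∧ Per φ ∧ φ 0 = 0 ∧
      ∀ᵐ y ∂(volume : Measure Pl), a y * ‖p + gradient φ y‖ ≤ c := by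
  have hne : {r : ℝ | ∃ φ : Pl → ℝ, ContDiff ℝ 1 φ ∧ Per φ ∧
    r = essSup (fun y => a y * ‖p + gradient φ y‖) (volume : Measure Pl)}.Nonempty :=
    ⟨_, fun _ => 0, contDiff_const, fun _ _ => rfl, rfl⟩
  obtain ⟨r, ⟨φ, h1, h2, rfl⟩, h3⟩ := exists_lt_of_csInf_lt hne (lt_of_le_of_lt h hc)
  refine ⟨fun y => φ y - φ 0, h1.sub contDiff_const, fun x k => ?_, by simp, ?_⟩
  · simp only [h2 x k]
  · have h4 := ae_le_of_essSup_lt ha h1 h2 p c h3.le
    have e : gradient (fun y => φ y - φ 0) = gradient φ := by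
      funext y
      have := (hasGradientAt h1 y)
      have h5 : HasGradientAt (fun y => φ y - φ 0) (gradient φ y) y := by
        have h6 := this.hasFDerivAt.sub_const (φ 0)
        exact h6
      exact h5.gradient
    rw [e]
    exact h4

/-- the set `K` -/
def KK : Set Pl := {x : Pl | |x 0 + √2 * x 1| ≤ 1 ∧ |x 0| ≤ 1}

/-- the irrational direction -/
noncomputable def th : Pl := !₂[(1 : ℝ), √2]

/-- first vertex -/
noncomputable def p1 : Pl := !₂[(1 : ℝ), 0]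

/-- second vertex -/
noncomputable def p2 : Pl := !₂[(-1 : ℝ), √2]

lemma inner_th (x : Pl) : inner ℝ th x = x 0 + √2 * x 1 := by
  simp [th, EuclideanSpace.inner_eq_star_dotProduct, Fin.sum_univ_two, dotProduct]
  ring

lemma H1_of {a : Pl → ℝ} (ha : Admissible a) (hK : Sa a ⊆ KK) (x : Pl) (φ : Pl → ℝ) (c : ℝ)
    (hφ : ContDiff ℝ 1 φ) (hp : Per φ)
    (h : ∀ᵐ y ∂(volume : Measure Pl), a y * ‖x + gradient φ y‖ ≤ c) : inner ℝ th x ≤ c := by
  obtain ⟨-, -, α, β, hα, hab⟩ := id ha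
  have hc0 : 0 ≤ c := by
    obtain ⟨y, hy1, hy2⟩ := (h.and hab).exists
    exact le_trans (mul_nonneg (hα.le.trans hy2.1) (norm_nonneg _)) hy1
  by_contra hcon
  push Not at hcon
  set r : ℝ := inner ℝ th x with hr
  set r' : ℝ := (c + r) / 2 with hr'
  have h1 : c < r' := by rw [hr']; linarith
  have h2 : r' < r := by rw [hr']; linarith
  have h0 : 0 < r' := by linarith
  have h3 : effH a (r'⁻¹ • x) ≤ 1 := by
    refine effH_le ha (φ := fun y => r'⁻¹ * φ y) (contDiff_const.mul hφ) (fun z k => by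
      simp only [hp z k]) _ _ ?_
    have e : ∀ y, gradient (fun y => r'⁻¹ * φ y) y = r'⁻¹ • gradient φ y := by
      intro y
      have h5 := (hasGradientAt hφ y).hasFDerivAt.const_mul r'⁻¹
      have h6 : HasGradientAt (fun y => r'⁻¹ * φ y) (r'⁻¹ • gradient φ y) y := by
        rw [hasGradientAt_iff_hasFDerivAt, map_smul]
        exact h5
      exact h6.gradient
    filter_upwards [h] with y hy
    rw [e, ← smul_add, norm_smul, Real.norm_eq_abs, abs_of_pos (inv_pos.2 h0)]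
    have : a y * (r'⁻¹ * ‖x + gradient φ y‖) = r'⁻¹ * (a y * ‖x + gradient φ y‖) := by ring
    rw [this, inv_mul_le_iff₀ h0]
    linarith
  have h4 := (hK h3).1
  rw [← inner_th, inner_smul_right, ← hr, abs_le] at h4
  have h5 := h4.2
  rw [inv_mul_le_iff₀ h0] at h5
  linarith

lemma p1_mem : p1 ∈ KK := by
  constructor <;> simp [p1]

lemma p2_mem : p2 ∈ KK := by
  constructor
  · simp [p2]; norm_num
  · simp [p2]

lemma inner_th_p1 : inner ℝ th p1 = 1 := by rw [inner_th]; simp [p1]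

lemma inner_th_p2 : inner ℝ th p2 = 1 := by rw [inner_th]; simp [p2]; norm_num

end Pool.Agent.R284.HJ
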