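import Mathlib
import Pool.Agent.R284.HJ.Defs

/-! HJ-F: lip_null and sard (helper806). -/

set_option autoImplicit false

namespace Pool.Agent.R284.HJ

open MeasureTheory Filter Topology
open scoped BoundedContinuousFunction NNReal Real

theorem lip_null (G : Pl → Pl) (K : ℝ≥0) (hG : LipschitzWith K G) (S : Set Pl)
    (hS : volume S = 0) : volume (G '' S) = 0 := by
  have h0 : (Measure.hausdorffMeasure (Module.finrank ℝ Pl : ℝ) : Measure Pl) S = 0 :=
    (Measure.absolutelyContinuous_isAddHaarMeasure _ volume) hS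
  have h1 := hG.hausdorffMeasure_image_le (d := (Module.finrank ℝ Pl : ℝ)) (Nat.cast_nonneg _) S
  rw [h0, mul_zero] at h1
  exact (Measure.absolutelyContinuous_isAddHaarMeasure volume
    (Measure.hausdorffMeasure (Module.finrank ℝ Pl : ℝ) : Measure Pl)) (le_antisymm h1 zero_le)

theorem sard (u u' : Pl → ℝ) (G : Pl → Pl) (b : ℝ) (hG0 : ∀ x, G x 0 = u x)
    (hG1 : ∀ x, G x 1 = b * (u x + u' x)) (S : Set Pl)
    (hS : ∀ x ∈ S, DifferentiableAt ℝ u x ∧ DifferentiableAt ℝ u' x ∧
      fderiv ℝ u x = fderiv ℝ u' x) : volume (G '' S) = 0 := by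
  have hdiff : ∀ x ∈ S, DifferentiableAt ℝ G x := by
    intro x hx
    obtain ⟨h1, h2, -⟩ := hS x hx
    rw [differentiableAt_euclidean]
    intro i
    fin_cases i
    · have : (fun x => G x 0) = u := funext hG0
      change DifferentiableAt ℝ (fun x => G x 0) x
      rw [this]
      exact h1
    · have : (fun x => G x 1) = fun x => b * (u x + u' x) := funext hG1
      change DifferentiableAt ℝ (fun x => G x 1) x
      rw [this]
      exact (h1.add h2).const_mul b
  refine addHaar_image_eq_zero_of_det_fderivWithin_eq_zero volume (f' := fun x => fderiv ℝ G x)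
    (fun x hx => (hdiff x hx).hasFDerivAt.hasFDerivWithinAt) fun x hx => ?_
  by_contra hdet
  obtain ⟨h1, h2, h3⟩ := hS x hx
  have hc : ∀ i, HasFDerivAt (fun x => G x i)
      ((EuclideanSpace.proj i : Pl →L[ℝ] ℝ).comp (fderiv ℝ G x)) x := fun i =>
    (EuclideanSpace.proj i : Pl →L[ℝ] ℝ).hasFDerivAt.comp x (hdiff x hx).hasFDerivAt
  have e0 : (EuclideanSpace.proj 0 : Pl →L[ℝ] ℝ).comp (fderiv ℝ G x) = fderiv ℝ u x := by
    have h4 := hc 0
    rw [show (fun x => G x 0) = u from funext hG0] at h4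
    exact h4.fderiv.symm
  have e1 : (EuclideanSpace.proj 1 : Pl →L[ℝ] ℝ).comp (fderiv ℝ G x) =
      b • (fderiv ℝ u x + fderiv ℝ u' x) := by
    have h4 := hc 1
    rw [show (fun x => G x 1) = fun x => b * (u x + u' x) from funext hG1] at h4
    exact h4.unique ((h1.hasFDerivAt.add h2.hasFDerivAt).const_mul b)
  have hsurj : Function.Surjective (fderiv ℝ G x) := by
    have h4 : LinearMap.det ((fderiv ℝ G x : Pl →L[ℝ] Pl) : Pl →ₗ[ℝ] Pl) ≠ 0 := hdet
    have h5 := (LinearMap.equivOfDetNeZero _ h4).surjective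
    exact h5
  obtain ⟨v, hv⟩ := hsurj (EuclideanSpace.single 1 1)
  have h4 : fderiv ℝ u x v = 0 := by
    rw [← e0]
    change (fderiv ℝ G x v) 0 = 0
    rw [hv]
    simp
  have h5 : b * (fderiv ℝ u x v + fderiv ℝ u' x v) = 1 := by
    have h6 := congrArg (fun T : Pl →L[ℝ] ℝ => T v) e1
    change (fderiv ℝ G x v) 1 = b * (fderiv ℝ u x v + fderiv ℝ u' x v) at h6
    rw [← h6, hv]
    simp
  rw [← h3, h4] at h5
  norm_num at h5

end Pool.Agent.R284.HJ
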