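import Mathlib
import Pool.Agent.R284.HJ.Eff

set_option autoImplicit false

namespace Pool.Agent.R284.HJ

open MeasureTheory Filter Topology
open scoped BoundedContinuousFunction NNReal Real

lemma cont_coord (i : Fin 2) : Continuous fun x : Pl => x i :=
  (EuclideanSpace.proj (𝕜 := ℝ) i).continuous

lemma KK_inW : InW KK := by
  have hc0 := cont_coord 0
  have hc1 := cont_coord 1
  refine ⟨?_, ?_, ?_, ?_⟩
  · have hcl : IsClosed KK := by
      have h1 : IsClosed {x : Pl | |x 0 + √2 * x 1| ≤ 1} :=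
        isClosed_le (by fun_prop) continuous_const
      have h2 : IsClosed {x : Pl | |x 0| ≤ 1} := isClosed_le (by fun_prop) continuous_const
      exact h1.inter h2
    refine (isCompact_closedBall (0 : Pl) 3).of_isClosed_subset hcl ?_
    rintro x ⟨h1, h2⟩
    have h3 : (√2 : ℝ) ^ 2 = 2 := Real.sq_sqrt (by norm_num)
    have h4 : (0 : ℝ) < √2 := by positivity
    rw [abs_le] at h1 h2
    have h5 : (√2 * x 1) ^ 2 ≤ 4 := by
      have a1 : √2 * x 1 ≤ 2 := by linarith
      have a2 : -2 ≤ √2 * x 1 := by linarith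
      nlinarith
    have h6 : (x 1) ^ 2 ≤ 2 := by
      rw [mul_pow, h3] at h5; linarith
    have h7 : (x 0) ^ 2 ≤ 1 := by nlinarith
    rw [mem_closedBall_zero_iff, EuclideanSpace.norm_eq, Real.sqrt_le_left (by norm_num),
      Fin.sum_univ_two, Real.norm_eq_abs, Real.norm_eq_abs, sq_abs, sq_abs]
    linarith
  · intro x hx y hy s t hs ht hst
    obtain ⟨h1, h2⟩ := hx
    obtain ⟨h3, h4⟩ := hy
    rw [abs_le] at h1 h2 h3 h4
    constructor
    · rw [abs_le]
      have e : (s • x + t • y) 0 + √2 * (s • x + t • y) 1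
          = s * (x 0 + √2 * x 1) + t * (y 0 + √2 * y 1) := by
        simp; ring
      rw [e]
      constructor <;> nlinarith
    · rw [abs_le]
      have e : (s • x + t • y) 0 = s * x 0 + t * y 0 := by simp
      rw [e]
      constructor <;> nlinarith
  · rintro x ⟨h1, h2⟩
    constructor
    · have e : (-x) 0 + √2 * (-x) 1 = -(x 0 + √2 * x 1) := by simp; ring
      rw [e, abs_neg]; exact h1
    · have e : (-x) 0 = -(x 0) := by simp
      rw [e, abs_neg]; exact h2
  · have hop : IsOpen {x : Pl | |x 0 + √2 * x 1| < 1 ∧ |x 0| < 1} := by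
      have h1 : IsOpen {x : Pl | |x 0 + √2 * x 1| < 1} :=
        isOpen_lt (by fun_prop) continuous_const
      have h2 : IsOpen {x : Pl | |x 0| < 1} := isOpen_lt (by fun_prop) continuous_const
      exact h1.inter h2
    refine ⟨0, ?_⟩
    rw [mem_interior]
    exact ⟨_, fun x hx => ⟨hx.1.le, hx.2.le⟩, hop, by simp⟩

end Pool.Agent.R284.HJ
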