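import Mathlib
import Pool.Agent.R284.HJ.Defs

/-! HJ-G: grad_zero (helper806). -/

set_option autoImplicit false

namespace Pool.Agent.R284.HJ

open MeasureTheory Filter Topology
open scoped BoundedContinuousFunction NNReal Real ContDiff

/-- weak convergence of the derivatives, tested with smooth functions -/
theorem weak_smooth (L : ℝ≥0) (w : ℕ → Pl → ℝ) (w' : Pl → ℝ)
    (hL : ∀ j, LipschitzWith L (w j)) (hL' : LipschitzWith L w')
    (hlim : ∀ x, Tendsto (fun j => w j x) atTop (𝓝 (w' x))) (v : Pl) (φ : Pl → ℝ)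
    (hφc : HasCompactSupport φ) (hφ : ContDiff ℝ ∞ φ) :
    Tendsto (fun j => ∫ x, lineDeriv ℝ (w j) x v * φ x) atTop
      (𝓝 (∫ x, lineDeriv ℝ w' x v * φ x)) := by
  obtain ⟨C, hC⟩ := ContDiff.lipschitzWith_of_hasCompactSupport hφc hφ (by simp)
  obtain ⟨M, hM⟩ := (hlim 0).norm.bddAbove_range
  have hM' : ∀ j, |w j 0| ≤ M := fun j => hM ⟨j, rfl⟩
  have hline : ∀ x, lineDeriv ℝ φ x (-v) = fderiv ℝ φ x (-v) := fun x =>
    (hφ.differentiable (by simp)).differentiableAt.lineDeriv_eq_fderiv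
  have hcont : Continuous fun x => fderiv ℝ φ x (-v) :=
    (hφ.continuous_fderiv (by simp)).clm_apply continuous_const
  have hsupp : HasCompactSupport fun x => fderiv ℝ φ x (-v) := hφc.fderiv_apply ℝ (-v)
  have e1 : ∀ j, ∫ x, lineDeriv ℝ (w j) x v * φ x = ∫ x, fderiv ℝ φ x (-v) * w j x := by
    intro j
    rw [(hL j).integral_lineDeriv_mul_eq hC hφc v]
    exact integral_congr_ae (Eventually.of_forall fun x => by simp only [hline x])
  have e2 : ∫ x, lineDeriv ℝ w' x v * φ x = ∫ x, fderiv ℝ φ x (-v) * w' x := by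
    rw [hL'.integral_lineDeriv_mul_eq hC hφc v]
    exact integral_congr_ae (Eventually.of_forall fun x => by simp only [hline x])
  simp only [e1, e2]
  refine tendsto_integral_of_dominated_convergence
    (fun x => |fderiv ℝ φ x (-v)| * (M + L * ‖x‖)) (fun j => ?_) ?_ (fun j => ?_) ?_
  · exact (hcont.mul (hL j).continuous).aestronglyMeasurable
  · refine Continuous.integrable_of_hasCompactSupport ?_ ?_
    · exact hcont.abs.mul (continuous_const.add (continuous_const.mul continuous_norm))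
    · exact (hsupp.comp_left (g := fun t : ℝ => |t|) abs_zero).mul_right
  · refine Eventually.of_forall fun x => ?_
    rw [Real.norm_eq_abs, abs_mul]
    refine mul_le_mul_of_nonneg_left ?_ (abs_nonneg _)
    have h1 := (hL j).dist_le_mul x 0
    rw [dist_zero_right, Real.dist_eq] at h1
    have h2 := hM' j
    have h3 : |w j x| ≤ |w j x - w j 0| + |w j 0| := by
      have := abs_add_le (w j x - w j 0) (w j 0)
      rwa [sub_add_cancel] at this
    linarith
  · exact Eventually.of_forall fun x => (hlim x).const_mul _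

theorem abs_lineDeriv_le {L : ℝ≥0} {f : Pl → ℝ} (hf : LipschitzWith L f) (v x : Pl) :
    |lineDeriv ℝ f x v| ≤ L * ‖v‖ := norm_lineDeriv_le_of_lipschitz ℝ hf

theorem lineDeriv_meas {L : ℝ≥0} {f : Pl → ℝ} (hf : LipschitzWith L f) (v : Pl) :
    Measurable fun x => lineDeriv ℝ f x v := measurable_lineDeriv hf.continuous

theorem int_mul {L : ℝ≥0} {f : Pl → ℝ} (hf : LipschitzWith L f) (v : Pl) {ζ : Pl → ℝ}
    (hζ : Integrable ζ) : Integrable fun x => lineDeriv ℝ f x v * ζ x :=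
  hζ.bdd_mul (c := L * ‖v‖) (lineDeriv_meas hf v).aestronglyMeasurable
    (Eventually.of_forall fun x => abs_lineDeriv_le hf v x)

theorem int_mul_le {L : ℝ≥0} {f : Pl → ℝ} (hf : LipschitzWith L f) (v : Pl) {ζ : Pl → ℝ}
    (hζ : Integrable ζ) : |∫ x, lineDeriv ℝ f x v * ζ x| ≤ L * ‖v‖ * ∫ x, ‖ζ x‖ := by
  rw [← integral_const_mul]
  refine (abs_integral_le_integral_abs).trans ?_
  refine integral_mono (int_mul hf v hζ).abs (hζ.norm.const_mul _) fun x => ?_
  change |lineDeriv ℝ f x v * ζ x| ≤ L * ‖v‖ * ‖ζ x‖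
  rw [abs_mul]
  exact mul_le_mul_of_nonneg_right (abs_lineDeriv_le hf v x) (abs_nonneg _)

/-- weak convergence of the derivatives, tested with integrable functions -/
theorem weak_int (L : ℝ≥0) (w : ℕ → Pl → ℝ) (w' : Pl → ℝ)
    (hL : ∀ j, LipschitzWith L (w j)) (hL' : LipschitzWith L w')
    (hlim : ∀ x, Tendsto (fun j => w j x) atTop (𝓝 (w' x))) (v : Pl) (ζ : Pl → ℝ)
    (hζ : Integrable ζ) :
    Tendsto (fun j => ∫ x, lineDeriv ℝ (w j) x v * ζ x) atTop
      (𝓝 (∫ x, lineDeriv ℝ w' x v * ζ x)) := by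
  rw [Metric.tendsto_nhds]
  intro ε hε
  set B : ℝ := L * ‖v‖ with hB
  have hB0 : 0 ≤ B := by positivity
  obtain ⟨φ, hφc, hφ, hφζ⟩ := MemLp.exist_eLpNorm_sub_le ENNReal.one_ne_top le_rfl
    (memLp_one_iff_integrable.2 hζ) (show (0 : ℝ) < ε / (3 * (B + 1)) by positivity)
  have hφi : Integrable φ := hφ.continuous.integrable_of_hasCompactSupport hφc
  have hsub : Integrable fun x => ζ x - φ x := hζ.sub hφi
  have hnorm : ∫ x, ‖ζ x - φ x‖ ≤ ε / (3 * (B + 1)) := by
    rw [integral_norm_eq_lintegral_enorm hsub.aestronglyMeasurable]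
    refine ENNReal.toReal_le_of_le_ofReal (by positivity) ?_
    rw [eLpNorm_one_eq_lintegral_enorm] at hφζ
    exact hφζ
  have hsm := Metric.tendsto_nhds.1 (weak_smooth L w w' hL hL' hlim v φ hφc hφ) (ε / 3)
    (by positivity)
  filter_upwards [hsm] with j hj
  have hsplit : ∀ f : Pl → ℝ, LipschitzWith L f → ∫ x, lineDeriv ℝ f x v * ζ x =
      (∫ x, lineDeriv ℝ f x v * φ x) + ∫ x, lineDeriv ℝ f x v * (ζ x - φ x) := by
    intro f hf
    rw [← integral_add (int_mul hf v hφi) (int_mul hf v hsub)]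
    exact integral_congr_ae (Eventually.of_forall fun x => by ring)
  rw [hsplit _ (hL j), hsplit _ hL', Real.dist_eq]
  rw [Real.dist_eq] at hj
  have h1 := int_mul_le (hL j) v hsub
  have h2 := int_mul_le hL' v hsub
  have h3 : B * ∫ x, ‖ζ x - φ x‖ < ε / 3 := by
    refine lt_of_le_of_lt (mul_le_mul_of_nonneg_left hnorm hB0) ?_
    rw [mul_div_assoc', div_lt_div_iff₀ (by positivity) (by positivity)]
    nlinarith
  rw [← hB] at h1 h2
  have h4 := abs_le.1 (h1.trans h3.le)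
  have h5 := abs_le.1 (h2.trans h3.le)
  have h6 := abs_lt.1 hj
  have h7 := lt_of_le_of_lt h1 h3
  have h8 := lt_of_le_of_lt h2 h3
  rw [abs_lt] at h7 h8
  rw [abs_lt]
  constructor <;> linarith

theorem line_zero (ν : Measure Pl) [IsProbabilityMeasure ν] (hν : ν ≪ volume) (L : ℝ≥0)
    (w : ℕ → Pl → ℝ) (w' : Pl → ℝ) (hC : ∀ j, ContDiff ℝ 1 (w j))
    (hL : ∀ j, LipschitzWith L (w j)) (hL' : LipschitzWith L w')
    (hlim : ∀ x, Tendsto (fun j => w j x) atTop (𝓝 (w' x)))
    (h2 : Tendsto (fun j => ∫ x, ‖gradient (w j) x‖ ^ 2 ∂ν) atTop (𝓝 0)) (v : Pl) :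
    ∀ᵐ x ∂ν, lineDeriv ℝ w' x v = 0 := by
  have hm' := lineDeriv_meas hL' v
  let σ : Pl → ℝ := fun x => if 0 ≤ lineDeriv ℝ w' x v then 1 else -1
  have hσm : Measurable σ :=
    Measurable.ite (measurableSet_le measurable_const hm') measurable_const measurable_const
  have hσ1 : ∀ x, |σ x| = 1 := by
    intro x
    change |if 0 ≤ lineDeriv ℝ w' x v then (1 : ℝ) else -1| = 1
    split_ifs <;> simp
  have hσ2 : ∀ x, σ x * lineDeriv ℝ w' x v = |lineDeriv ℝ w' x v| := by
    intro x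
    change (if 0 ≤ lineDeriv ℝ w' x v then (1 : ℝ) else -1) * _ = _
    split_ifs with h
    · rw [abs_of_nonneg h, one_mul]
    · rw [abs_of_neg (not_le.1 h)]
      ring
  have hρ : Integrable (fun x => (ν.rnDeriv volume x).toReal) := Measure.integrable_toReal_rnDeriv
  have hζ : Integrable (fun x => (ν.rnDeriv volume x).toReal * σ x) :=
    hρ.mul_bdd (c := 1) hσm.aestronglyMeasurable (Eventually.of_forall fun x => (hσ1 x).le)
  have hconv : ∀ f : Pl → ℝ, ∫ x, lineDeriv ℝ f x v * ((ν.rnDeriv volume x).toReal * σ x) =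
      ∫ x, σ x * lineDeriv ℝ f x v ∂ν := by
    intro f
    rw [← integral_rnDeriv_smul hν]
    refine integral_congr_ae (Eventually.of_forall fun x => ?_)
    simp only [smul_eq_mul]
    ring
  have hw := weak_int L w w' hL hL' hlim v _ hζ
  simp only [hconv] at hw
  -- the bound for the gradients
  have hgrad : ∀ j x, |lineDeriv ℝ (w j) x v| ≤ ‖gradient (w j) x‖ * ‖v‖ := by
    intro j x
    have h3 : lineDeriv ℝ (w j) x v = fderiv ℝ (w j) x v :=
      ((hC j).differentiable (by simp)).differentiableAt.lineDeriv_eq_fderiv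
    rw [h3, ← inner_gradient_left]
    exact abs_real_inner_le_norm _ _
  have hgc : ∀ j, Continuous (gradient (w j)) := by
    intro j
    exact (InnerProductSpace.toDual ℝ Pl).symm.continuous.comp ((hC j).continuous_fderiv (by simp))
  have hgb : ∀ j x, ‖gradient (w j) x‖ ≤ L := by
    intro j x
    have h3 : ‖gradient (w j) x‖ = ‖fderiv ℝ (w j) x‖ :=
      (InnerProductSpace.toDual ℝ Pl).symm.norm_map _
    rw [h3]
    exact norm_fderiv_le_of_lipschitz ℝ (hL j)
  have hgi : ∀ j, Integrable (fun x => ‖gradient (w j) x‖ ^ 2) ν := by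
    intro j
    refine Integrable.of_bound ((hgc j).norm.pow 2).aestronglyMeasurable ((L : ℝ) ^ 2)
      (Eventually.of_forall fun x => ?_)
    rw [Real.norm_eq_abs, abs_of_nonneg (by positivity)]
    exact pow_le_pow_left₀ (norm_nonneg _) (hgb j x) 2
  have hle : ∀ ε : ℝ, 0 < ε → ∫ x, |lineDeriv ℝ w' x v| ∂ν ≤ ε := by
    intro ε hε
    have hlim2 : Tendsto (fun j => ε + ‖v‖ ^ 2 / ε * ∫ x, ‖gradient (w j) x‖ ^ 2 ∂ν) atTop
        (𝓝 (ε + ‖v‖ ^ 2 / ε * 0)) := (h2.const_mul _).const_add _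
    rw [mul_zero, add_zero] at hlim2
    have h3 : ∫ x, σ x * lineDeriv ℝ w' x v ∂ν = ∫ x, |lineDeriv ℝ w' x v| ∂ν :=
      integral_congr_ae (Eventually.of_forall fun x => hσ2 x)
    rw [← h3]
    refine le_of_tendsto_of_tendsto' hw hlim2 fun j => ?_
    have h4 : ∫ x, (ε + ‖v‖ ^ 2 / ε * ‖gradient (w j) x‖ ^ 2) ∂ν =
        ε + ‖v‖ ^ 2 / ε * ∫ x, ‖gradient (w j) x‖ ^ 2 ∂ν := by
      rw [integral_add (integrable_const _) ((hgi j).const_mul _), integral_const_mul]
      simp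
    rw [← h4]
    refine integral_mono ?_ ((integrable_const _).add ((hgi j).const_mul _)) fun x => ?_
    · refine Integrable.of_bound (hσm.mul (lineDeriv_meas (hL j) v)).aestronglyMeasurable
        (L * ‖v‖) (Eventually.of_forall fun x => ?_)
      rw [Real.norm_eq_abs, abs_mul, hσ1, one_mul]
      exact abs_lineDeriv_le (hL j) v x
    · change σ x * lineDeriv ℝ (w j) x v ≤ ε + ‖v‖ ^ 2 / ε * ‖gradient (w j) x‖ ^ 2
      have h5 : σ x * lineDeriv ℝ (w j) x v ≤ ‖gradient (w j) x‖ * ‖v‖ := by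
        refine (le_abs_self _).trans ?_
        rw [abs_mul, hσ1, one_mul]
        exact hgrad j x
      refine h5.trans ?_
      have h6 : ‖v‖ ^ 2 / ε * ‖gradient (w j) x‖ ^ 2 = (‖gradient (w j) x‖ * ‖v‖) ^ 2 / ε := by
        ring
      rw [h6]
      set t := ‖gradient (w j) x‖ * ‖v‖ with ht
      have h7 : (ε + t ^ 2 / ε) = (ε ^ 2 + t ^ 2) / ε := by
        field_simp
      rw [h7, le_div_iff₀ hε]
      nlinarith [sq_nonneg (ε - t), sq_nonneg t]
  have hzero : ∫ x, |lineDeriv ℝ w' x v| ∂ν = 0 :=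
    le_antisymm (le_of_forall_pos_le_add fun ε hε => by
      have := hle ε hε
      linarith) (integral_nonneg fun x => abs_nonneg _)
  have hint : Integrable (fun x => |lineDeriv ℝ w' x v|) ν := by
    refine Integrable.of_bound hm'.abs.aestronglyMeasurable (L * ‖v‖)
      (Eventually.of_forall fun x => ?_)
    rw [Real.norm_eq_abs, abs_abs]
    exact abs_lineDeriv_le hL' v x
  have h8 := (integral_eq_zero_iff_of_nonneg (fun x => abs_nonneg _) hint).1 hzero
  filter_upwards [h8] with x hx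
  exact abs_eq_zero.1 hx

theorem grad_zero (ν : Measure Pl) [IsProbabilityMeasure ν] (hν : ν ≪ volume) (L : ℝ≥0)
    (w : ℕ → Pl → ℝ) (w' : Pl → ℝ) (hC : ∀ j, ContDiff ℝ 1 (w j))
    (hL : ∀ j, LipschitzWith L (w j)) (hL' : LipschitzWith L w')
    (hlim : ∀ x, Tendsto (fun j => w j x) atTop (𝓝 (w' x)))
    (h2 : Tendsto (fun j => ∫ x, ‖gradient (w j) x‖ ^ 2 ∂ν) atTop (𝓝 0)) :
    ∀ᵐ x ∂ν, fderiv ℝ w' x = 0 := by
  have h0 := line_zero ν hν L w w' hC hL hL' hlim h2 (EuclideanSpace.single 0 1)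
  have h1 := line_zero ν hν L w w' hC hL hL' hlim h2 (EuclideanSpace.single 1 1)
  have hd : ∀ᵐ x ∂ν, DifferentiableAt ℝ w' x := hν.ae_le hL'.ae_differentiableAt
  filter_upwards [h0, h1, hd] with x hx0 hx1 hxd
  rw [hxd.lineDeriv_eq_fderiv] at hx0 hx1
  ext v
  have hv : v = v 0 • EuclideanSpace.single 0 (1 : ℝ) + v 1 • EuclideanSpace.single 1 (1 : ℝ) := by
    ext i
    fin_cases i <;> simp
  rw [hv, map_add, map_smul, map_smul, hx0, hx1]
  simp

end Pool.Agent.R284.HJ
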