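import Mathlib
import Pool.Agent.R284.HJ.Eff
import Pool.Agent.R284.HJ.A
import Pool.Agent.R284.HJ.B
import Pool.Agent.R284.HJ.C
import Pool.Agent.R284.HJ.D
import Pool.Agent.R284.HJ.E
import Pool.Agent.R284.HJ.F
import Pool.Agent.R284.HJ.G

set_option autoImplicit false

namespace Pool.Agent.R284.HJ

open MeasureTheory Filter Topology
open scoped BoundedContinuousFunction NNReal Real

/-- a near-optimal corrector, packaged -/
structure Corr (a : Pl → ℝ) (p : Pl) (L : ℝ≥0) (c : ℝ) where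
  φ : Pl → ℝ
  smooth : ContDiff ℝ 1 φ
  per : Per φ
  zero : φ 0 = 0
  F : Pl →ᵇ Pl
  hF : ∀ y, F y = p + gradient φ y
  hae : ∀ᵐ y ∂(volume : Measure Pl), a y * ‖F y‖ ≤ c
  hL : ∀ y, ‖F y‖ ≤ L

lemma exists_corr {a : Pl → ℝ} (ha : Admissible a) {α : ℝ} (hα : 0 < α)
    (hab : ∀ᵐ y ∂(volume : Measure Pl), α ≤ a y) (p : Pl) (h : effH a p ≤ 1) (c : ℝ)
    (hc : 1 < c) (hc2 : c ≤ 2) : Nonempty (Corr a p (Real.toNNReal (2 / α)) c) := by
  obtain ⟨φ, h1, h2, h3, h4⟩ := exists_near ha p h c hc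
  obtain ⟨C, hC⟩ := (per_gradient h1 h2).bounded (continuous_gradient h1)
  have hcont : Continuous fun y => p + gradient φ y := continuous_const.add (continuous_gradient h1)
  have hb : ∀ y, ‖p + gradient φ y‖ ≤ 2 / α := by
    refine everywhere_of_ae hcont.norm _ ?_
    filter_upwards [h4, hab] with y hy1 hy2
    rw [le_div_iff₀ hα]
    nlinarith [norm_nonneg (p + gradient φ y)]
  refine ⟨⟨φ, h1, h2, h3, BoundedContinuousFunction.ofNormedAddCommGroup _ hcont (2 / α) hb,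
    fun y => rfl, h4, fun y => ?_⟩⟩
  rw [Real.coe_toNNReal _ (by positivity)]
  exact hb y

namespace Corr

variable {a : Pl → ℝ} {p : Pl} {L : ℝ≥0} {c : ℝ} (K : Corr a p L c)

/-- `p·x + φ(x)` -/
noncomputable def u (x : Pl) : ℝ := inner ℝ p x + K.φ x

lemma smooth_u : ContDiff ℝ 1 K.u := (contDiff_const.inner ℝ contDiff_id).add K.smooth

lemma hasGradientAt_u (x : Pl) : HasGradientAt K.u (K.F x) x := by
  rw [K.hF]
  have h1 := (hasGradientAt K.smooth x).hasFDerivAt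
  have h2 : HasFDerivAt (fun y : Pl => (inner ℝ p y : ℝ)) (InnerProductSpace.toDual ℝ Pl p) x := by
    exact (InnerProductSpace.toDual ℝ Pl p).hasFDerivAt
  rw [hasGradientAt_iff_hasFDerivAt, map_add]
  exact h2.add h1

lemma gradient_u (x : Pl) : gradient K.u x = K.F x := (K.hasGradientAt_u x).gradient

lemma lip_u : LipschitzWith L K.u := by
  refine lipschitzWith_of_nnnorm_fderiv_le (𝕜 := ℝ) (K.smooth_u.differentiable (by norm_num)) ?_
  intro x
  have h1 : fderiv ℝ K.u x = InnerProductSpace.toDual ℝ Pl (K.F x) :=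
    (K.hasGradientAt_u x).hasFDerivAt.fderiv
  rw [h1, ← NNReal.coe_le_coe, coe_nnnorm, LinearIsometryEquiv.norm_map]
  exact K.hL x

lemma u_zero : K.u 0 = 0 := by simp [u, K.zero]

lemma u_add (x : Pl) (k : Fin 2 → ℤ) : K.u (x + ivec k) = K.u x + inner ℝ p (ivec k) := by
  simp only [u, inner_add_right, K.per x k]; ring

end Corr

/-- integral vectors against irrational direction -/
lemma irr (k : Fin 2 → ℤ) (hk : k ≠ 0) : (k 0 : ℝ) + √2 * (k 1 : ℝ) ≠ 0 := by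
  intro h
  by_cases h1 : k 1 = 0
  · rw [h1] at h
    simp only [Int.cast_zero, mul_zero, add_zero, Int.cast_eq_zero] at h
    exact hk (by ext i; fin_cases i <;> simp [h, h1])
  · have h2 : √2 = ((-(k 0 : ℤ) / (k 1 : ℤ) : ℚ) : ℝ) := by
      push_cast
      rw [eq_div_iff (by exact_mod_cast h1)]
      linarith
    exact irrational_sqrt_two ⟨_, h2.symm⟩

lemma inner_p1 (x : Pl) : inner ℝ p1 x = x 0 := by
  simp [p1, EuclideanSpace.inner_eq_star_dotProduct, Fin.sum_univ_two, dotProduct]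

lemma inner_p2 (x : Pl) : inner ℝ p2 x = -x 0 + √2 * x 1 := by
  simp [p2, EuclideanSpace.inner_eq_star_dotProduct, Fin.sum_univ_two, dotProduct]
  ring

lemma sqrt2_inv : (√2)⁻¹ * √2 = 1 := inv_mul_cancel₀ (by positivity)

/-- the phase `2π k·G` -/
noncomputable def phase (k : Fin 2 → ℤ) (u u' : Pl → ℝ) (x : Pl) : ℝ :=
  2 * π * ((k 0 : ℝ) * u x + (k 1 : ℝ) * ((√2)⁻¹ * (u x + u' x)))

lemma phase_per {a : Pl → ℝ} {L : ℝ≥0} {c : ℝ} (K1 : Corr a p1 L c) (K2 : Corr a p2 L c)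
    (k l : Fin 2 → ℤ) (x : Pl) :
    phase k K1.u K2.u (x + ivec l) = phase k K1.u K2.u x + 2 * π * ((k 0 * l 0 + k 1 * l 1 : ℤ) : ℝ) := by
  simp only [phase, K1.u_add, K2.u_add, inner_p1, inner_p2, ivec_apply]
  push_cast
  have h := sqrt2_inv
  linear_combination (2 * π * (k 1 : ℝ) * (l 1 : ℝ)) * h

lemma T_small {a : Pl → ℝ} {L : ℝ≥0} {c : ℝ} (T : (Pl →ᵇ Pl) →ₗ[ℝ] ℝ)
    (hT : ∀ (x : Pl) (φ : Pl → ℝ) (F : Pl →ᵇ Pl), ContDiff ℝ 1 φ → Per φ →
        (∀ y, F y = x + gradient φ y) → T F = inner ℝ th x)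
    (K1 : Corr a p1 L c) (K2 : Corr a p2 L c)
    (hdiff : ∀ g : Pl →ᵇ ℝ, |T (g • K1.F) - T (g • K2.F)| ≤ 2 * ‖g‖ * (c - 1)) (hc : 1 ≤ c)
    (k : Fin 2 → ℤ) (hk : k ≠ 0) (s s' : ℝ → ℝ) (hs : ∀ t, HasDerivAt s (s' t) t)
    (hs1 : ContDiff ℝ 1 s) (hper : ∀ (t : ℝ) (n : ℤ), s (t + 2 * π * n) = s t)
    (g : Pl →ᵇ ℝ) (hg : ∀ x, g x = s' (phase k K1.u K2.u x)) (hg1 : ‖g‖ ≤ 1) :
    |T (g • K1.F)| ≤ |(k 1 : ℝ) * (√2)⁻¹| / |(k 0 : ℝ) + √2 * (k 1 : ℝ)| * (2 * (c - 1)) := by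
  set A : ℝ := (k 0 : ℝ) + (k 1 : ℝ) * (√2)⁻¹ with hA
  set B : ℝ := (k 1 : ℝ) * (√2)⁻¹ with hB
  have hAB : A + B = (k 0 : ℝ) + √2 * (k 1 : ℝ) := by
    have h2 : (√2)⁻¹ * 2 = √2 := by
      rw [inv_mul_eq_iff_eq_mul₀ (by positivity)]
      exact (Real.mul_self_sqrt (by norm_num)).symm
    rw [hA, hB]
    linear_combination (k 1 : ℝ) * h2
  have hne : A + B ≠ 0 := by rw [hAB]; exact irr k hk
  have hP : ∀ x, HasGradientAt (phase k K1.u K2.u) ((2 * π) • (A • K1.F x + B • K2.F x)) x := by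
    intro x
    have h1 := (K1.hasGradientAt_u x).hasFDerivAt
    have h2 := (K2.hasGradientAt_u x).hasFDerivAt
    have h3 := ((h1.const_mul (k 0 : ℝ)).add
      (((h1.add h2).const_mul (√2)⁻¹).const_mul (k 1 : ℝ))).const_mul (2 * π)
    rw [hasGradientAt_iff_hasFDerivAt]
    refine h3.congr_fderiv ?_
    rw [map_smul, map_add, map_smul, map_smul, hA, hB]
    module
  set ψ : Pl → ℝ := fun x => s (phase k K1.u K2.u x) with hψ
  have hψ1 : ContDiff ℝ 1 ψ := by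
    refine hs1.comp ?_
    unfold phase
    exact contDiff_const.mul ((contDiff_const.mul K1.smooth_u).add
      (contDiff_const.mul (contDiff_const.mul (K1.smooth_u.add K2.smooth_u))))
  have hψ2 : Per ψ := by
    intro x l
    simp only [hψ, phase_per, hper]
  have hψ3 : ∀ x, gradient ψ x = g x • ((2 * π) • (A • K1.F x + B • K2.F x)) := by
    intro x
    have h1 := (hs (phase k K1.u K2.u x)).comp_hasFDerivAt x (hP x).hasFDerivAt
    have h2 : HasGradientAt ψ (g x • ((2 * π) • (A • K1.F x + B • K2.F x))) x := by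
      rw [hasGradientAt_iff_hasFDerivAt, map_smul, hg]
      exact h1
    exact h2.gradient
  have h0 : T ((2 * π) • (A • (g • K1.F) + B • (g • K2.F))) = inner ℝ th (0 : Pl) := by
    refine hT 0 ψ _ hψ1 hψ2 fun y => ?_
    rw [zero_add, hψ3]
    change (2 * π) • (A • (g y • K1.F y) + B • (g y • K2.F y)) = _
    module
  rw [inner_zero_right, LinearMap.map_smul, map_add, LinearMap.map_smul, LinearMap.map_smul,
    smul_eq_mul, smul_eq_mul, smul_eq_mul] at h0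
  have h1 : A * T (g • K1.F) + B * T (g • K2.F) = 0 := by
    have : (2 * π) ≠ 0 := by positivity
    exact (mul_eq_zero.1 h0).resolve_left this
  have h2 : (A + B) * T (g • K1.F) = B * (T (g • K1.F) - T (g • K2.F)) := by linarith
  have h3 : |A + B| * |T (g • K1.F)| ≤ |B| * (2 * (c - 1)) := by
    rw [← abs_mul, h2, abs_mul]
    refine mul_le_mul_of_nonneg_left ((hdiff g).trans ?_) (abs_nonneg _)
    nlinarith [norm_nonneg g]
  rw [← hAB, div_mul_eq_mul_div, le_div_iff₀ (abs_pos.2 hne), mul_comm]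
  exact h3

end Pool.Agent.R284.HJ
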