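import Mathlib
import Pool.Agent.R284.HJ.Main
import Pool.Agent.R284.HJ.KW

set_option autoImplicit false

namespace Pool.Agent.R284.HJ

open MeasureTheory Filter Topology
open scoped BoundedContinuousFunction NNReal Real

lemma continuous_phase (k : Fin 2 → ℤ) {u u' : Pl → ℝ} (hu : Continuous u) (hu' : Continuous u') :
    Continuous (phase k u u') := by
  unfold phase
  fun_prop

lemma trig_zero {a : Pl → ℝ} {L : ℝ≥0} {c : ℕ → ℝ} (T : (Pl →ᵇ Pl) →ₗ[ℝ] ℝ)
    (hT : ∀ (x : Pl) (φ : Pl → ℝ) (F : Pl →ᵇ Pl), ContDiff ℝ 1 φ → Per φ →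
        (∀ y, F y = x + gradient φ y) → T F = inner ℝ th x)
    (K1 : ∀ j, Corr a p1 L (c j)) (K2 : ∀ j, Corr a p2 L (c j))
    (lam : (Pl →ᵇ ℝ) →ₗ[ℝ] ℝ) (hc1 : ∀ j, 1 ≤ c j) (hc : Tendsto c atTop (𝓝 1))
    (hl : ∀ (g : Pl →ᵇ ℝ) (j : ℕ), |lam g - T (g • (K1 j).F)| ≤ 2 * ‖g‖ * (c j - 1))
    (hd : ∀ (g : Pl →ᵇ ℝ) (j : ℕ),
      |T (g • (K1 j).F) - T (g • (K2 j).F)| ≤ 2 * ‖g‖ * (c j - 1))
    (ν : Measure Pl) [IsProbabilityMeasure ν]
    (hν : ∀ g : Pl →ᵇ ℝ, Per g → ∫ x, g x ∂ν = lam g)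
    (s : ℕ → ℕ) (hs : Tendsto s atTop atTop) (u u' : Pl → ℝ)
    (hu : ∀ x, Tendsto (fun j => (K1 (s j)).u x) atTop (𝓝 (u x)))
    (hu' : ∀ x, Tendsto (fun j => (K2 (s j)).u x) atTop (𝓝 (u' x)))
    (k : Fin 2 → ℤ) (hk : k ≠ 0) (σ σ' : ℝ → ℝ) (hσ : ∀ t, HasDerivAt σ (σ' t) t)
    (hσ1 : ContDiff ℝ 1 σ) (hper : ∀ (t : ℝ) (n : ℤ), σ (t + 2 * π * n) = σ t)
    (hper' : ∀ (t : ℝ) (n : ℤ), σ' (t + 2 * π * n) = σ' t) (hσ' : Continuous σ')
    (hb : ∀ t, |σ' t| ≤ 1) : ∫ x, σ' (phase k u u' x) ∂ν = 0 := by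
  have hcontj : ∀ j, Continuous fun x => σ' (phase k (K1 j).u (K2 j).u x) := fun j =>
    hσ'.comp (continuous_phase k (K1 j).lip_u.continuous (K2 j).lip_u.continuous)
  set g : ℕ → (Pl →ᵇ ℝ) := fun j => BoundedContinuousFunction.ofNormedAddCommGroup
    (fun x => σ' (phase k (K1 j).u (K2 j).u x)) (hcontj j) 1 (fun x => hb _) with hg
  have hg1 : ∀ j, ‖g j‖ ≤ 1 := fun j =>
    (BoundedContinuousFunction.norm_le (by norm_num)).2 fun x => hb _
  have hgx : ∀ j x, g j x = σ' (phase k (K1 j).u (K2 j).u x) := fun j x => rfl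
  have hgper : ∀ j, Per (g j) := by
    intro j x l
    rw [hgx, hgx, phase_per, hper']
  set D : ℝ := |(k 1 : ℝ) * (√2)⁻¹| / |(k 0 : ℝ) + √2 * (k 1 : ℝ)| with hD
  have hD0 : 0 ≤ D := by positivity
  have h1 : ∀ j, |lam (g j)| ≤ (D + 1) * (2 * (c j - 1)) := by
    intro j
    have e1 := T_small T hT (K1 j) (K2 j) (fun g => hd g j) (hc1 j) k hk σ σ' hσ hσ1 hper (g j)
      (hgx j) (hg1 j)
    have e2 := hl (g j) j
    have e3 : 2 * ‖g j‖ * (c j - 1) ≤ 2 * (c j - 1) := by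
      nlinarith [hg1 j, hc1 j, norm_nonneg (g j)]
    have e4 : |lam (g j)| ≤ |lam (g j) - T (g j • (K1 j).F)| + |T (g j • (K1 j).F)| := by
      have := abs_add_le (lam (g j) - T (g j • (K1 j).F)) (T (g j • (K1 j).F))
      rwa [sub_add_cancel] at this
    rw [← hD] at e1
    linarith
  have h2 : Tendsto (fun j => lam (g (s j))) atTop (𝓝 0) := by
    have h3 : Tendsto (fun j => (D + 1) * (2 * (c (s j) - 1))) atTop (𝓝 0) := by
      have h4 : Tendsto (fun j => c (s j)) atTop (𝓝 1) := hc.comp hs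
      have h5 := ((h4.sub_const 1).const_mul 2).const_mul (D + 1)
      simpa using h5
    exact squeeze_zero_norm (fun j => by rw [Real.norm_eq_abs]; exact h1 (s j)) h3
  have h3 : Tendsto (fun j => ∫ x, g (s j) x ∂ν) atTop (𝓝 (∫ x, σ' (phase k u u' x) ∂ν)) := by
    refine tendsto_integral_of_dominated_convergence (fun _ => (1 : ℝ)) (fun j => ?_)
      (integrable_const _) (fun j => ?_) ?_
    · exact (g (s j)).continuous.aestronglyMeasurable
    · exact Eventually.of_forall fun x => hb _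
    · refine Eventually.of_forall fun x => ?_
      simp only [hgx]
      refine (hσ'.tendsto _).comp ?_
      unfold phase
      exact (((hu x).const_mul _).add ((((hu x).add (hu' x)).const_mul _).const_mul _)).const_mul _
  have h4 : (fun j => ∫ x, g (s j) x ∂ν) = fun j => lam (g (s j)) := by
    funext j
    exact hν _ (hgper _)
  rw [h4] at h3
  exact tendsto_nhds_unique h3 h2

theorem main {a : Pl → ℝ} (ha : Admissible a) : Sa a ≠ KK := by
  intro hK
  obtain ⟨hmeas, hper, α, β, hα, hab⟩ := id ha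
  have hK' : Sa a ⊆ KK := hK.le
  have hp1 : effH a p1 ≤ 1 := by
    have : p1 ∈ Sa a := by rw [hK]; exact p1_mem
    exact this
  have hp2 : effH a p2 ≤ 1 := by
    have : p2 ∈ Sa a := by rw [hK]; exact p2_mem
    exact this
  obtain ⟨T, hT1, hT2⟩ := exists_T a α β hα hab th (H1_of ha hK')
  set c : ℕ → ℝ := fun j => 1 + 1 / ((j : ℝ) + 1) with hcdef
  have hc1 : ∀ j, 1 < c j := fun j => by
    have : (0 : ℝ) < 1 / ((j : ℝ) + 1) := by positivity
    simp only [hcdef]; linarith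
  have hc2 : ∀ j, c j ≤ 2 := fun j => by
    have : 1 / ((j : ℝ) + 1) ≤ 1 := by
      rw [div_le_one (by positivity)]
      have : (0 : ℝ) ≤ j := Nat.cast_nonneg j
      linarith
    simp only [hcdef]; linarith
  have hc : Tendsto c atTop (𝓝 1) := by
    have := (tendsto_one_div_add_atTop_nhds_zero_nat (𝕜 := ℝ)).const_add 1
    rw [add_zero] at this
    exact this
  set L : ℝ≥0 := Real.toNNReal (2 / α) with hL
  have hK1 : ∀ j, Nonempty (Corr a p1 L (c j)) := fun j =>
    exists_corr ha hα (hab.mono fun _ h => h.1) p1 hp1 (c j) (hc1 j) (hc2 j)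
  have hK2 : ∀ j, Nonempty (Corr a p2 L (c j)) := fun j =>
    exists_corr ha hα (hab.mono fun _ h => h.1) p2 hp2 (c j) (hc1 j) (hc2 j)
  let K1 : ∀ j, Corr a p1 L (c j) := fun j => (hK1 j).some
  let K2 : ∀ j, Corr a p2 L (c j) := fun j => (hK2 j).some
  have hTF1 : ∀ j, T (K1 j).F = 1 := fun j => by
    rw [hT2 p1 (K1 j).φ (K1 j).F (K1 j).smooth (K1 j).per (K1 j).hF, inner_th_p1]
  have hTF2 : ∀ j, T (K2 j).F = 1 := fun j => by
    rw [hT2 p2 (K2 j).φ (K2 j).F (K2 j).smooth (K2 j).per (K2 j).hF, inner_th_p2]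
  obtain ⟨lam, hpos, h1, hl, hd, C, hC⟩ := exists_lam a α β hα hab T hT1 (fun j => (K1 j).F)
    (fun j => (K2 j).F) c (fun j => (hc1 j).le) hc2 hc (fun j => (K1 j).hae)
    (fun j => (K2 j).hae) hTF1 hTF2
  obtain ⟨ν, hν, hνl⟩ := exists_nu lam hpos h1
  obtain ⟨s1, u, hs1, hu, hlu⟩ := exists_limit L (fun j => (K1 j).u) (fun j => (K1 j).lip_u)
    (fun j => (K1 j).u_zero)
  obtain ⟨s2, u', hs2, hu', hlu'⟩ := exists_limit L (fun j => (K2 (s1 j)).u)
    (fun j => (K2 (s1 j)).lip_u) (fun j => (K2 (s1 j)).u_zero)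
  set s : ℕ → ℕ := fun j => s1 (s2 j) with hs
  have hst : Tendsto s atTop atTop := hs1.tendsto_atTop.comp hs2.tendsto_atTop
  have hlim : ∀ x, Tendsto (fun j => (K1 (s j)).u x) atTop (𝓝 (u x)) := fun x =>
    (hlu x).comp hs2.tendsto_atTop
  have hlim' : ∀ x, Tendsto (fun j => (K2 (s j)).u x) atTop (𝓝 (u' x)) := hlu'
  set G : Pl → Pl := fun x => !₂[u x, (√2)⁻¹ * (u x + u' x)] with hG
  have hG0 : ∀ x, G x 0 = u x := fun x => by simp [hG]
  have hG1 : ∀ x, G x 1 = (√2)⁻¹ * (u x + u' x) := fun x => by simp [hG]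
  have hGL : LipschitzWith (2 * L) G := by
    refine LipschitzWith.of_dist_le_mul fun x y => ?_
    have e1 : |u x - u y| ≤ L * dist x y := by
      have := hu.dist_le_mul x y
      rwa [Real.dist_eq] at this
    have e2 : |u' x - u' y| ≤ L * dist x y := by
      have := hu'.dist_le_mul x y
      rwa [Real.dist_eq] at this
    set d : ℝ := L * dist x y with hd'
    have hd0 : 0 ≤ d := by positivity
    have e3 : dist (G x) (G y) ≤ 2 * d := by
      rw [EuclideanSpace.dist_eq, Real.sqrt_le_left (by positivity), Fin.sum_univ_two,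
        Real.dist_eq, Real.dist_eq, sq_abs, sq_abs, hG0, hG0, hG1, hG1, ← mul_sub, mul_pow]
      have e4 : ((√2)⁻¹ : ℝ) ^ 2 = 1 / 2 := by
        rw [inv_pow, Real.sq_sqrt (by norm_num)]; norm_num
      rw [e4]
      rw [abs_le] at e1 e2
      nlinarith [e1.1, e1.2, e2.1, e2.2]
    calc dist (G x) (G y) ≤ 2 * d := e3
      _ = ((2 * L : ℝ≥0) : ℝ) * dist x y := by rw [hd']; push_cast; ring
  have hphase : ∀ k x, phase k u u' x = 2 * π * ((k 0 : ℝ) * G x 0 + (k 1 : ℝ) * G x 1) := by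
    intro k x
    rw [hG0, hG1]; rfl
  have hnull : ∀ S : Set Pl, volume (G '' S) = 0 → ν S = 0 := by
    intro S hS
    refine null_of_fourier ν G hGL.continuous (fun k hk => ?_) (fun k hk => ?_) S hS
    · have := trig_zero T hT2 K1 K2 lam (fun j => (hc1 j).le) hc hl hd ν hνl s hst u u' hlim
        hlim' k hk Real.sin Real.cos Real.hasDerivAt_sin Real.contDiff_sin
        (fun t n => by rw [mul_comm (2 * π)]; exact Real.sin_add_int_mul_two_pi t n)
        (fun t n => by rw [mul_comm (2 * π)]; exact Real.cos_add_int_mul_two_pi t n)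
        Real.continuous_cos Real.abs_cos_le_one
      simpa only [hphase] using this
    · have := trig_zero T hT2 K1 K2 lam (fun j => (hc1 j).le) hc hl hd ν hνl s hst u u' hlim
        hlim' k hk (fun t => -Real.cos t) Real.sin
        (fun t => by
          have h7 := (Real.hasDerivAt_cos t).fun_neg
          rw [neg_neg] at h7
          exact h7) Real.contDiff_cos.neg
        (fun t n => by rw [mul_comm (2 * π)]; simp only [Real.cos_add_int_mul_two_pi t n])
        (fun t n => by rw [mul_comm (2 * π)]; exact Real.sin_add_int_mul_two_pi t n)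
        Real.continuous_sin Real.abs_sin_le_one
      simpa only [hphase] using this
  have hac : ν ≪ volume := Measure.AbsolutelyContinuous.mk fun S _ hS =>
    hnull S (lip_null G _ hGL S hS)
  -- gradients
  have hgw : ∀ j x, gradient (fun y => (K1 j).u y - (K2 j).u y) x = (K1 j).F x - (K2 j).F x := by
    intro j x
    have h5 : HasGradientAt (fun y => (K1 j).u y - (K2 j).u y) ((K1 j).F x - (K2 j).F x) x := by
      rw [hasGradientAt_iff_hasFDerivAt, map_sub]
      exact ((K1 j).hasGradientAt_u x).hasFDerivAt.sub ((K2 j).hasGradientAt_u x).hasFDerivAt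
    exact h5.gradient
  have hq : ∀ j, ∫ x, ‖gradient (fun y => (K1 j).u y - (K2 j).u y) x‖ ^ 2 ∂ν ≤ C * (c j - 1) := by
    intro j
    set g : Pl →ᵇ ℝ := BoundedContinuousFunction.ofNormedAddCommGroup
      (fun x => ‖(K1 j).F x - (K2 j).F x‖ ^ 2)
      ((((K1 j).F.continuous.sub (K2 j).F.continuous).norm).pow 2) ((2 * L) ^ 2) (fun x => by
        rw [Real.norm_eq_abs, abs_of_nonneg (by positivity)]
        have e1 : ‖(K1 j).F x - (K2 j).F x‖ ≤ 2 * L :=
          (norm_sub_le _ _).trans (by linarith [(K1 j).hL x, (K2 j).hL x])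
        exact pow_le_pow_left₀ (norm_nonneg _) e1 2) with hg
    have hgx : ∀ x, g x = ‖(K1 j).F x - (K2 j).F x‖ ^ 2 := fun x => rfl
    have hgp : Per g := by
      intro x k
      rw [hgx, hgx, (K1 j).hF, (K2 j).hF, (K1 j).hF, (K2 j).hF,
        per_gradient (K1 j).smooth (K1 j).per, per_gradient (K2 j).smooth (K2 j).per]
    have e1 : ∫ x, ‖gradient (fun y => (K1 j).u y - (K2 j).u y) x‖ ^ 2 ∂ν = lam g := by
      rw [← hνl g hgp]
      refine integral_congr_ae (Eventually.of_forall fun x => ?_)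
      simp only [hgw, hgx]
    rw [e1]
    exact hC j g hgx
  have hzero := grad_zero ν hac (L + L) (fun j => fun y => (K1 (s j)).u y - (K2 (s j)).u y)
    (fun y => u y - u' y) (fun j => (K1 (s j)).smooth_u.sub (K2 (s j)).smooth_u)
    (fun j => (K1 (s j)).lip_u.sub (K2 (s j)).lip_u) (hu.sub hu')
    (fun x => (hlim x).sub (hlim' x)) (by
      have h3 : Tendsto (fun j => C * (c (s j) - 1)) atTop (𝓝 0) := by
        have h4 : Tendsto (fun j => c (s j)) atTop (𝓝 1) := hc.comp hst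
        simpa using (h4.sub_const 1).const_mul C
      refine squeeze_zero (fun j => ?_) (fun j => hq (s j)) h3
      exact integral_nonneg fun x => by positivity)
  have hd1 : ∀ᵐ x ∂ν, DifferentiableAt ℝ u x := hac.ae_le hu.ae_differentiableAt
  have hd2 : ∀ᵐ x ∂ν, DifferentiableAt ℝ u' x := hac.ae_le hu'.ae_differentiableAt
  have hS := hnull {x | DifferentiableAt ℝ u x ∧ DifferentiableAt ℝ u' x ∧
    fderiv ℝ u x = fderiv ℝ u' x} (sard u u' G _ hG0 hG1 _ fun x hx => hx)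
  have hae : ∀ᵐ x ∂ν, DifferentiableAt ℝ u x ∧ DifferentiableAt ℝ u' x ∧
      fderiv ℝ u x = fderiv ℝ u' x := by
    filter_upwards [hd1, hd2, hzero] with x h1 h2 h3
    refine ⟨h1, h2, ?_⟩
    have h4 : fderiv ℝ (fun y => u y - u' y) x = fderiv ℝ u x - fderiv ℝ u' x := fderiv_sub h1 h2
    rw [h4] at h3
    exact sub_eq_zero.1 h3
  have h0 : ν Set.univ = 0 := by
    have h5 : ν {x | ¬ (DifferentiableAt ℝ u x ∧ DifferentiableAt ℝ u' x ∧
      fderiv ℝ u x = fderiv ℝ u' x)} = 0 := hae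
    have h6 : (Set.univ : Set Pl) ⊆ {x | DifferentiableAt ℝ u x ∧ DifferentiableAt ℝ u' x ∧
      fderiv ℝ u x = fderiv ℝ u' x} ∪ {x | ¬ (DifferentiableAt ℝ u x ∧ DifferentiableAt ℝ u' x ∧
      fderiv ℝ u x = fderiv ℝ u' x)} := by
      intro x _
      by_cases h : DifferentiableAt ℝ u x ∧ DifferentiableAt ℝ u' x ∧ fderiv ℝ u x = fderiv ℝ u' x
      · exact Or.inl h
      · exact Or.inr h
    refine le_antisymm ((measure_mono h6).trans ((measure_union_le _ _).trans ?_)) bot_le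
    rw [hS, h5, add_zero]
  rw [measure_univ] at h0
  exact one_ne_zero h0

/-- some symmetric convex body is not realizable -/
theorem final : ∃ K : Set Pl, InW K ∧ ∀ a : Pl → ℝ, Admissible a → Sa a ≠ K :=
  ⟨KK, KK_inW, fun _ ha => main ha⟩

end Pool.Agent.R284.HJ
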